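import Pool.Agent.TH872.Sq.W3

set_option autoImplicit false

/-! Polynomials at integers with independent random digits: differencing. -/

namespace Pool.Agent.H92.Pd
open Finset Polynomial
open Pool.Agent.H807R2.Dav
open Pool.Agent.TH872.Sq

/-- the polynomial `F (x + c t)` -/
noncomputable def sb (F : ℝ[X]) (x c : ℝ) : ℝ[X] := (taylor x F).comp (C c * X)

lemma sb_eval (F : ℝ[X]) (x c t : ℝ) : (sb F x c).eval t = F.eval (x + c * t) := by
  unfold sb
  rw [eval_comp, taylor_eval]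
  simp only [eval_mul, eval_C, eval_X]
  rw [add_comm]

lemma sb_coeff (F : ℝ[X]) (x c : ℝ) (n : ℕ) : (sb F x c).coeff n = (hasseDeriv n F).eval x * c ^ n := by
  unfold sb
  rw [comp_C_mul_X_coeff, taylor_coeff]

lemma sb_top (F : ℝ[X]) (x c : ℝ) (e : ℕ) (h : F.natDegree ≤ e) : (sb F x c).coeff e = F.coeff e * c ^ e := by
  rw [sb_coeff]
  congr 1
  have h1 := natDegree_hasseDeriv_le F e
  rw [eval_eq_sum_range' (n := 1) (by omega)]
  simp [hasseDeriv_coeff]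

lemma sb_next (F : ℝ[X]) (x c : ℝ) (e : ℕ) (h : F.natDegree ≤ e + 1) :
    (sb F x c).coeff e = (F.coeff e + (e + 1) * F.coeff (e + 1) * x) * c ^ e := by
  rw [sb_coeff]
  congr 1
  have h1 := natDegree_hasseDeriv_le F e
  rw [eval_eq_sum_range' (n := 2) (by omega)]
  rw [sum_range_succ, sum_range_one, hasseDeriv_coeff, hasseDeriv_coeff]
  rw [zero_add, Nat.choose_self, add_comm 1 e, Nat.choose_succ_self_right]
  push_cast
  ring

lemma sb_deg (F : ℝ[X]) (x c : ℝ) (e : ℕ) (h : F.natDegree ≤ e) : (sb F x c).natDegree ≤ e := by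
  rw [natDegree_le_iff_coeff_eq_zero]
  intro n hn
  rw [sb_top F x c n (by omega), coeff_eq_zero_of_natDegree_lt (by omega), zero_mul]

lemma df_deg (F : ℝ[X]) (x y c : ℝ) (e : ℕ) (h : F.natDegree ≤ e + 1) : (sb F x c - sb F y c).natDegree ≤ e := by
  rw [natDegree_le_iff_coeff_eq_zero]
  intro n hn
  rw [coeff_sub, sb_top F x c n (by omega), sb_top F y c n (by omega), sub_self]

lemma df_top (F : ℝ[X]) (x y c : ℝ) (e : ℕ) (h : F.natDegree ≤ e + 1) :
    (sb F x c - sb F y c).coeff e = (e + 1) * F.coeff (e + 1) * (x - y) * c ^ e := by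
  rw [coeff_sub, sb_next F x c e h, sb_next F y c e h]
  ring

lemma nn_neg (x : ℝ) : nn (-x) = nn x := by
  apply le_antisymm
  · refine (nn_le _ (-(round x))).trans (le_of_eq ?_)
    unfold nn
    rw [← abs_neg]
    congr 1
    push_cast
    ring
  · refine (nn_le _ (-(round (-x)))).trans (le_of_eq ?_)
    unfold nn
    rw [← abs_neg]
    congr 1
    push_cast
    ring

/-- the inequality of Cauchy and Schwarz -/
lemma cs_box (m n : ℕ) (p q : ℕ → ℝ) (hp : ∀ u, 0 ≤ p u) (hq : ∀ v, 0 ≤ q v) (hq1 : ∑ v ∈ range n, q v = 1) (f : ℕ → ℕ → ℝ) :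
    ‖∑ u ∈ range m, ((p u : ℝ) : ℂ) * ∑ v ∈ range n, ((q v : ℝ) : ℂ) * ee (f u v)‖ ^ 2 ≤
      ∑ u' ∈ range m, p u' * ∑ u ∈ range m, p u * ‖∑ v ∈ range n, ((q v : ℝ) : ℂ) * ee (f u v - f u' v)‖ := by
  have e1 : ∑ u ∈ range m, ((p u : ℝ) : ℂ) * ∑ v ∈ range n, ((q v : ℝ) : ℂ) * ee (f u v) =
      ∑ v ∈ range n, ((q v : ℝ) : ℂ) * ∑ u ∈ range m, ((p u : ℝ) : ℂ) * ee (f u v) := by
    simp only [mul_sum]
    rw [sum_comm]
    apply sum_congr rfl
    intro v _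
    apply sum_congr rfl
    intro u _
    ring
  have e2 : ‖∑ v ∈ range n, ((q v : ℝ) : ℂ) * ∑ u ∈ range m, ((p u : ℝ) : ℂ) * ee (f u v)‖ ≤
      ∑ v ∈ range n, q v * ‖∑ u ∈ range m, ((p u : ℝ) : ℂ) * ee (f u v)‖ := by
    refine (norm_sum_le _ _).trans (le_of_eq ?_)
    apply sum_congr rfl
    intro v _
    rw [norm_mul, Complex.norm_real, Real.norm_of_nonneg (hq v)]
  have e3 : (∑ v ∈ range n, q v * ‖∑ u ∈ range m, ((p u : ℝ) : ℂ) * ee (f u v)‖) ^ 2 ≤
      ∑ v ∈ range n, q v * ‖∑ u ∈ range m, ((p u : ℝ) : ℂ) * ee (f u v)‖ ^ 2 :=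
    Real.pow_arith_mean_le_arith_mean_pow _ _ _ (fun v _ => hq v) hq1 (fun v _ => norm_nonneg _) 2
  have e4 : ((∑ v ∈ range n, q v * ‖∑ u ∈ range m, ((p u : ℝ) : ℂ) * ee (f u v)‖ ^ 2 : ℝ) : ℂ) =
      ∑ u' ∈ range m, ∑ u ∈ range m, ((p u' : ℝ) : ℂ) * ((p u : ℝ) : ℂ) *
        ∑ v ∈ range n, ((q v : ℝ) : ℂ) * ee (f u v - f u' v) := by
    push_cast
    have f1 : ∀ v : ℕ, ((‖∑ u ∈ range m, ((p u : ℝ) : ℂ) * ee (f u v)‖ : ℂ)) ^ 2 =
        ∑ u' ∈ range m, ∑ u ∈ range m, ((p u' : ℝ) : ℂ) * ((p u : ℝ) : ℂ) * ee (f u v - f u' v) := by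
      intro v
      rw [← Complex.mul_conj', map_sum, sum_mul_sum, sum_comm]
      apply sum_congr rfl
      intro u' _
      apply sum_congr rfl
      intro u _
      rw [map_mul, Complex.conj_ofReal, Pool.Agent.H373R2.T7.conj_ee]
      have f2 : ee (f u v) * ee (-(f u' v)) = ee (f u v - f u' v) := by
        rw [← ee_add]
        congr 1
      rw [← f2]
      ring
    simp only [f1, mul_sum]
    rw [sum_comm]
    apply sum_congr rfl
    intro u' _
    rw [sum_comm]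
    apply sum_congr rfl
    intro u _
    apply sum_congr rfl
    intro v _
    ring
  have hnn : 0 ≤ ∑ v ∈ range n, q v * ‖∑ u ∈ range m, ((p u : ℝ) : ℂ) * ee (f u v)‖ ^ 2 :=
    sum_nonneg fun v _ => mul_nonneg (hq v) (sq_nonneg _)
  rw [e1]
  refine (pow_le_pow_left₀ (norm_nonneg _) e2 2).trans (e3.trans ?_)
  rw [← Real.norm_of_nonneg hnn, ← Complex.norm_real, e4]
  refine (norm_sum_le _ _).trans ?_
  apply sum_le_sum
  intro u' _
  refine (norm_sum_le _ _).trans (le_of_eq ?_)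
  rw [mul_sum]
  apply sum_congr rfl
  intro u _
  rw [norm_mul, norm_mul, Complex.norm_real, Complex.norm_real, Real.norm_of_nonneg (hp u), Real.norm_of_nonneg (hp u')]
  ring

lemma norm_avg_pow {b : ℕ} (hb : 0 < b) {η : ℝ} {w : ℕ → ℕ → ℝ} (hw : Dig b η w) (i m q : ℕ) (f : ℕ → ℂ) (B : ℝ)
    (h : ∀ n, ‖f n‖ ^ q ≤ B) : ‖∑ n ∈ range (b ^ m), ((P b w i m n : ℝ) : ℂ) * f n‖ ^ q ≤ B := by
  have e2 : ‖∑ n ∈ range (b ^ m), ((P b w i m n : ℝ) : ℂ) * f n‖ ≤ ∑ n ∈ range (b ^ m), P b w i m n * ‖f n‖ := by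
    refine (norm_sum_le _ _).trans (le_of_eq ?_)
    apply sum_congr rfl
    intro v _
    rw [norm_mul, Complex.norm_real, Real.norm_of_nonneg (P_nonneg hw i m v)]
  have e3 : (∑ n ∈ range (b ^ m), P b w i m n * ‖f n‖) ^ q ≤ ∑ n ∈ range (b ^ m), P b w i m n * ‖f n‖ ^ q :=
    Real.pow_arith_mean_le_arith_mean_pow _ _ _ (fun v _ => P_nonneg hw i m v) (P_sum hb hw i m) (fun v _ => norm_nonneg _) q
  refine (pow_le_pow_left₀ (norm_nonneg _) e2 q).trans (e3.trans ?_)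
  calc ∑ n ∈ range (b ^ m), P b w i m n * ‖f n‖ ^ q ≤ ∑ n ∈ range (b ^ m), P b w i m n * B :=
        sum_le_sum fun n _ => mul_le_mul_of_nonneg_left (h n) (P_nonneg hw i m n)
    _ = B := by rw [← sum_mul, P_sum hb hw i m, one_mul]

/-- `0 + 1 + ... + e` -/
def T (e : ℕ) : ℕ := ∑ j ∈ range (e + 1), j

lemma T_succ (e : ℕ) : T (e + 1) = T e + (e + 1) := by unfold T; rw [sum_range_succ]

lemma T_one : T 1 = 1 := by decide

lemma T_le (e : ℕ) : T e ≤ e * e := by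
  induction e with
  | zero => decide
  | succ e ih =>
    rw [T_succ]
    nlinarith

/-- the Weyl inequality, if the multiples of the leading coefficient are well spaced -/
theorem weyl_core {b : ℕ} (hb : 2 ≤ b) {η : ℝ} (hη : 0 < η) (L J s : ℕ) (hs : 1 ≤ s) (C : ℝ) (hC0 : 0 ≤ C)
    (hC1 : (1 - η) ^ L ≤ C) (hC2 : (1 - η) ^ L * (1 + 2 * b * (g0 b η) ^ s) ^ J ≤ C) (e : ℕ) (he : 1 ≤ e) :
    ∀ (k l' : ℕ), J + e * L ≤ k → l' ≤ (e + 1) * (k - J - e * L) → ∀ w, Dig b η w → ∀ (i : ℕ) (F : ℝ[X]), F.natDegree ≤ e + 1 →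
    (∀ g : ℕ, 0 < g → g < b ^ (e * L) →
      1 / (b : ℝ) ^ J < nn (b.factorial * ((e + 1).factorial * F.coeff (e + 1)) * (b : ℝ) ^ (L * T e + l') * g)) →
    ‖∑ n ∈ range (b ^ k), ((P b w i k n : ℝ) : ℂ) * ee (F.eval (n : ℝ))‖ ^ (2 ^ e * s) ≤ e * C := by
  have hb0 : 0 < b := by omega
  induction e, he using Nat.le_induction with
  | base =>
    intro k l' hk hl' w hw i F hF hx
    obtain ⟨r, hr⟩ : ∃ r, r = l' / 2 := ⟨_, rfl⟩
    obtain ⟨m₁, hm₁⟩ : ∃ m₁, m₁ = l' % 2 := ⟨_, rfl⟩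
    obtain ⟨m₂, hm₂⟩ : ∃ m₂, m₂ = k - (r + L + m₁ + J) := ⟨_, rfl⟩
    have hk2 : r + (L + (m₁ + (J + m₂))) = k := by omega
    have hl3 : r + (r + (L + m₁)) = L * 1 + l' := by omega
    have hroot : (C ^ ((((2 * s : ℕ) : ℝ))⁻¹)) ^ (2 * s) = C := Real.rpow_inv_natCast_pow hC0 (by omega)
    have hev : ∀ n : ℕ, F.eval (n : ℝ) = F.coeff 0 + (F.coeff 2 * (n : ℝ) ^ 2 + F.coeff 1 * n) := by
      intro n
      rw [eval_eq_sum_range' (n := 3) (by omega), sum_range_succ, sum_range_succ, sum_range_one]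
      ring
    have h1 : ‖∑ n ∈ range (b ^ k), ((P b w i k n : ℝ) : ℂ) * ee (F.eval (n : ℝ))‖ =
        ‖∑ n ∈ range (b ^ k), ((P b w i k n : ℝ) : ℂ) * ee (F.coeff 2 * n ^ 2 + F.coeff 1 * n)‖ := by
      have : ∑ n ∈ range (b ^ k), ((P b w i k n : ℝ) : ℂ) * ee (F.eval (n : ℝ)) =
          ee (F.coeff 0) * ∑ n ∈ range (b ^ k), ((P b w i k n : ℝ) : ℂ) * ee (F.coeff 2 * n ^ 2 + F.coeff 1 * n) := by
        rw [mul_sum]
        apply sum_congr rfl
        intro n _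
        rw [hev, ee_add]
        ring
      rw [this, norm_mul, norm_ee, one_mul]
    have hmain := blocks hb hη hw i r L m₁ J m₂ s hs (F.coeff 2) (F.coeff 1) (C ^ ((((2 * s : ℕ) : ℝ))⁻¹))
      (Real.rpow_nonneg hC0 _) (by rw [hroot]; exact hC2) (by
      intro g hg0 hgL
      have h2 := hx g hg0 (by rwa [one_mul])
      rw [T_one, show (1 + 1 : ℕ) = 2 by norm_num] at h2
      rw [hl3]
      refine lt_of_lt_of_eq h2 ?_
      congr 1
      rw [show ((2 : ℕ).factorial : ℝ) = 2 by norm_num [Nat.factorial]]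
      ring)
    rw [hk2] at hmain
    rw [h1, pow_one, Nat.cast_one, one_mul]
    exact (pow_le_pow_left₀ (norm_nonneg _) hmain (2 * s)).trans (le_of_eq hroot)
  | succ e he ih =>
    intro k l' hk hl' w hw i F hF hx
    have hη1 := eta_le hw
    obtain ⟨R, hR⟩ : ∃ R, R = k - J - (e + 1) * L := ⟨_, rfl⟩
    rw [← hR] at hl'
    obtain ⟨r, hr⟩ : ∃ r, r = l' / (e + 2) := ⟨_, rfl⟩
    obtain ⟨l2, hl2⟩ : ∃ l2, l2 = l' % (e + 2) := ⟨_, rfl⟩
    have hdiv : (e + 2) * r + l2 = l' := by rw [hr, hl2]; exact Nat.div_add_mod l' (e + 2)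
    have hl2lt : l2 < e + 2 := by rw [hl2]; exact Nat.mod_lt _ (by omega)
    have heL : (e + 1) * L = e * L + L := by ring
    rw [heL] at hk hR
    have hrR : r ≤ R := by
      by_contra hcon
      push Not at hcon
      have : (e + 2) * (R + 1) ≤ (e + 2) * r := Nat.mul_le_mul_left _ hcon
      have h3 : (e + 1 + 1) * R = (e + 2) * R := by ring
      rw [h3] at hl'
      rw [mul_add] at this
      omega
    obtain ⟨k2, hk2⟩ : ∃ k2, k2 = k - r - L := ⟨_, rfl⟩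
    have hkk : r + (L + k2) = k := by omega
    have hk3 : J + e * L ≤ k2 := by omega
    have hk4 : k2 - J - e * L = R - r := by omega
    have hl4 : l2 ≤ (e + 1) * (k2 - J - e * L) := by
      rw [hk4]
      rcases Nat.eq_zero_or_pos l2 with h | h
      · omega
      · have hlt : r < R := by
          by_contra hcon
          have : r = R := by omega
          rw [this] at hdiv
          have h3 : (e + 1 + 1) * R = (e + 2) * R := by ring
          omega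
        calc l2 ≤ (e + 1) * 1 := by omega
          _ ≤ _ := Nat.mul_le_mul_left _ (by omega)
    rw [← hkk, ex_split b hb0 w i r (L + k2) (fun n => ee (F.eval (n : ℝ)))]
    apply norm_avg_pow hb0 hw
    intro x0
    rw [ex_split b hb0 w (i + r) L k2 (fun y => ee (F.eval ((x0 + b ^ r * y : ℕ) : ℝ)))]
    obtain ⟨F1, hF1⟩ : ∃ F1, F1 = sb F x0 ((b : ℝ) ^ r) := ⟨_, rfl⟩
    have hF1d : F1.natDegree ≤ e + 1 + 1 := by rw [hF1]; exact sb_deg F _ _ _ hF
    have hF1t : F1.coeff (e + 1 + 1) = F.coeff (e + 1 + 1) * ((b : ℝ) ^ r) ^ (e + 1 + 1) := by rw [hF1]; exact sb_top F _ _ _ hF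
    obtain ⟨p, hp⟩ : ∃ p : ℕ → ℝ, p = fun u => P b w (i + r) L u := ⟨_, rfl⟩
    obtain ⟨q, hq⟩ : ∃ q : ℕ → ℝ, q = fun v => P b w (i + r + L) k2 v := ⟨_, rfl⟩
    obtain ⟨f, hf⟩ : ∃ f : ℕ → ℕ → ℝ, f = fun u v => F.eval ((x0 + b ^ r * (u + b ^ L * v) : ℕ) : ℝ) := ⟨_, rfl⟩
    have hp0 : ∀ u, 0 ≤ p u := fun u => by rw [hp]; exact P_nonneg hw _ _ _
    have hq0 : ∀ v, 0 ≤ q v := fun v => by rw [hq]; exact P_nonneg hw _ _ _
    have hp1 : ∑ u ∈ range (b ^ L), p u = 1 := by rw [hp]; exact P_sum hb0 hw _ _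
    have hq1 : ∑ v ∈ range (b ^ k2), q v = 1 := by rw [hq]; exact P_sum hb0 hw _ _
    have hpL : ∀ u, p u ≤ (1 - η) ^ L := fun u => by rw [hp]; exact P_le hw _ _ _
    have hcs := cs_box (b ^ L) (b ^ k2) p q hp0 hq0 hq1 f
    obtain ⟨G, hG⟩ : ∃ G : ℕ → ℕ → ℝ[X], G = fun (u u' : ℕ) => sb F1 (u : ℝ) ((b : ℝ) ^ L) - sb F1 (u' : ℝ) ((b : ℝ) ^ L) := ⟨_, rfl⟩
    have hfG : ∀ u u' v : ℕ, f u v - f u' v = (G u u').eval (v : ℝ) := by
      intro u u' v
      rw [hf, hG, hF1]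
      simp only [eval_sub, sb_eval]
      push_cast
      rfl
    obtain ⟨X, hX⟩ : ∃ X : ℕ → ℕ → ℝ, X = fun u u' => ‖∑ v ∈ range (b ^ k2), ((q v : ℝ) : ℂ) * ee (f u v - f u' v)‖ := ⟨_, rfl⟩
    have hX0 : ∀ u u', 0 ≤ X u u' := fun u u' => by rw [hX]; exact norm_nonneg _
    have hXd : ∀ u u', X u u' ^ (2 ^ e * s) ≤ 1 := by
      intro u u'
      apply pow_le_one₀ (hX0 u u')
      rw [hX, hq]
      exact norm_avg hb0 hw _ _ _ 1 (fun n => by rw [norm_ee])
    have hXn : ∀ u ∈ range (b ^ L), ∀ u' ∈ range (b ^ L), u ≠ u' → X u u' ^ (2 ^ e * s) ≤ e * C := by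
      intro u hu u' hu' hne
      rw [mem_range] at hu hu'
      have hGd : (G u u').natDegree ≤ e + 1 := by rw [hG]; exact df_deg F1 _ _ _ _ hF1d
      have hGt : (G u u').coeff (e + 1) = ((e + 1 : ℕ) + 1) * F1.coeff (e + 1 + 1) * ((u : ℝ) - u') * ((b : ℝ) ^ L) ^ (e + 1) := by
        rw [hG]; exact df_top F1 _ _ _ _ hF1d
      have h2 := ih k2 l2 hk3 hl4 w hw (i + r + L) (G u u') hGd (by
        intro g hg0 hg1
        obtain ⟨h, hh0, hh1, hh2⟩ : ∃ h : ℕ, 0 < h ∧ h < b ^ L ∧ ((u : ℝ) - u' = h ∨ (u : ℝ) - u' = -h) := by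
          rcases lt_or_gt_of_ne hne with h | h
          · refine ⟨u' - u, by omega, by omega, Or.inr ?_⟩
            rw [Nat.cast_sub h.le]
            ring
          · refine ⟨u - u', by omega, by omega, Or.inl ?_⟩
            rw [Nat.cast_sub h.le]
        have h3 := hx (h * g) (Nat.mul_pos hh0 hg0) (by
          rw [heL, add_comm, pow_add]
          exact Nat.mul_lt_mul'' hh1 hg1)
        have h4 : nn (b.factorial * ((e + 1).factorial * (G u u').coeff (e + 1)) * (b : ℝ) ^ (L * T e + l2) * g) =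
            nn (b.factorial * ((e + 1 + 1).factorial * F.coeff (e + 1 + 1)) * (b : ℝ) ^ (L * T (e + 1) + l') * ((h * g : ℕ) : ℝ)) := by
          have h5 : (b : ℝ) ^ (L * T (e + 1) + l') = ((b : ℝ) ^ r) ^ (e + 1 + 1) * ((b : ℝ) ^ L) ^ (e + 1) * (b : ℝ) ^ (L * T e + l2) := by
            rw [← pow_mul, ← pow_mul, ← pow_add, ← pow_add]
            congr 1
            rw [T_succ, ← hdiv]
            ring
          rcases hh2 with h6 | h6
          · congr 1
            rw [hGt, hF1t, h5, h6, Nat.factorial_succ (e + 1)]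
            push_cast
            ring
          · rw [← nn_neg]
            congr 1
            rw [hGt, hF1t, h5, h6, Nat.factorial_succ (e + 1)]
            push_cast
            ring
        rw [h4]
        exact h3)
      rw [hX]
      refine le_trans (le_of_eq ?_) h2
      have h6 : ∑ v ∈ range (b ^ k2), ((q v : ℝ) : ℂ) * ee (f u v - f u' v) =
          ∑ n ∈ range (b ^ k2), ((P b w (i + r + L) k2 n : ℝ) : ℂ) * ee ((G u u').eval (n : ℝ)) := by
        apply sum_congr rfl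
        intro v _
        rw [hfG, hq]
      simp only
      rw [h6]
    -- together
    have h5 : ∀ u' ∈ range (b ^ L), (∑ u ∈ range (b ^ L), p u * X u u') ^ (2 ^ e * s) ≤ ((e + 1 : ℕ) : ℝ) * C := by
      intro u' hu'
      refine (Real.pow_arith_mean_le_arith_mean_pow _ _ _ (fun u _ => hp0 u) hp1 (fun u _ => hX0 u u') (2 ^ e * s)).trans ?_
      rw [← add_sum_erase _ _ hu']
      have t1 : p u' * X u' u' ^ (2 ^ e * s) ≤ C := by
        calc p u' * X u' u' ^ (2 ^ e * s) ≤ p u' * 1 := mul_le_mul_of_nonneg_left (hXd u' u') (hp0 u')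
          _ ≤ (1 - η) ^ L := by rw [mul_one]; exact hpL u'
          _ ≤ C := hC1
      have t2 : ∑ u ∈ (range (b ^ L)).erase u', p u * X u u' ^ (2 ^ e * s) ≤ e * C := by
        calc ∑ u ∈ (range (b ^ L)).erase u', p u * X u u' ^ (2 ^ e * s) ≤ ∑ u ∈ (range (b ^ L)).erase u', p u * (e * C) := by
              apply sum_le_sum
              intro u hu
              exact mul_le_mul_of_nonneg_left (hXn u (mem_of_mem_erase hu) u' hu' (ne_of_mem_erase hu)) (hp0 u)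
          _ ≤ ∑ u ∈ range (b ^ L), p u * (e * C) :=
              sum_le_sum_of_subset_of_nonneg (erase_subset _ _) (fun u _ _ => mul_nonneg (hp0 u) (by positivity))
          _ = e * C := by rw [← sum_mul, hp1, one_mul]
      push_cast
      linarith
    have hexp : 2 ^ (e + 1) * s = 2 * (2 ^ e * s) := by ring
    rw [hexp, pow_mul]
    have hcs' : ‖∑ u ∈ range (b ^ L), ((P b w (i + r) L u : ℝ) : ℂ) * ∑ v ∈ range (b ^ k2), ((P b w (i + r + L) k2 v : ℝ) : ℂ) *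
        ee (F.eval ((x0 + b ^ r * (u + b ^ L * v) : ℕ) : ℝ))‖ ^ 2 ≤ ∑ u' ∈ range (b ^ L), p u' * ∑ u ∈ range (b ^ L), p u * X u u' := by
      rw [hp, hq, hf] at hcs
      rw [hX, hp, hq, hf]
      exact hcs
    refine (pow_le_pow_left₀ (sq_nonneg _) hcs' _).trans ?_
    refine (Real.pow_arith_mean_le_arith_mean_pow _ _ _ (fun u _ => hp0 u) hp1 (fun u _ =>
      sum_nonneg fun v _ => mul_nonneg (hp0 v) (hX0 _ _)) (2 ^ e * s)).trans ?_
    calc ∑ u' ∈ range (b ^ L), p u' * (∑ u ∈ range (b ^ L), p u * X u u') ^ (2 ^ e * s) ≤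
        ∑ u' ∈ range (b ^ L), p u' * (((e + 1 : ℕ) : ℝ) * C) :=
          sum_le_sum fun u' hu' => mul_le_mul_of_nonneg_left (h5 u' hu') (hp0 u')
      _ = _ := by rw [← sum_mul, hp1, one_mul]

end Pool.Agent.H92.Pd
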