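import Pool.Agent.H92.Pd.A1

set_option autoImplicit false

/-! Polynomials at integers with independent random digits: the Weyl inequality and the moments. -/

namespace Pool.Agent.H92.Pd
open Finset Polynomial
open Pool.Agent.H807R2.Dav
open Pool.Agent.TH872.Sq

lemma small_s (b : ℕ) (hb : 2 ≤ b) (η : ℝ) (hη : 0 < η) (hη1 : η ≤ 1) (m : ℕ) :
    ∃ s : ℕ, 1 ≤ s ∧ (1 - η) * (1 + 2 * b * (g0 b η) ^ s) ^ m ≤ 1 - η / 2 := by
  obtain ⟨hg0, hg1⟩ := g0_bounds b hb η hη hη1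
  have h1 : Filter.Tendsto (fun s : ℕ => (g0 b η) ^ s) Filter.atTop (nhds 0) := tendsto_pow_atTop_nhds_zero_of_lt_one hg0 hg1
  have h2 : Filter.Tendsto (fun s : ℕ => (1 - η) * (1 + 2 * b * (g0 b η) ^ s) ^ m) Filter.atTop (nhds ((1 - η) * (1 + 2 * b * 0) ^ m)) := by
    apply Filter.Tendsto.const_mul
    apply Filter.Tendsto.pow
    apply Filter.Tendsto.const_add
    exact Filter.Tendsto.const_mul _ h1
  have h3 : (1 - η) * (1 + 2 * (b : ℝ) * 0) ^ m < 1 - η / 2 := by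
    rw [mul_zero, add_zero, one_pow, mul_one]
    linarith
  have h4 := (h2.eventually_lt_const h3).and (Filter.eventually_ge_atTop 1)
  obtain ⟨s, hs1, hs2⟩ := h4.exists
  exact ⟨s, hs2, hs1.le⟩

/-- **The Weyl inequality** for polynomials at integers with independent random digits, at the scale `L` -/
theorem weyl_scale (b e : ℕ) (hb : 2 ≤ b) (he : 1 ≤ e) (η : ℝ) (hη : 0 < η) (hη1 : η ≤ 1) : ∃ s : ℕ, 1 ≤ s ∧
    ∀ k L : ℕ, 1 ≤ L → 5 * e * L ≤ k → ∀ (w : ℕ → ℕ → ℝ), Dig b η w → ∀ (i : ℕ) (F : ℝ[X]), F.natDegree ≤ e + 1 →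
    ‖∑ n ∈ range (b ^ k), ((P b w i k n : ℝ) : ℂ) * ee (F.eval (n : ℝ))‖ ^ (2 ^ e * s) ≤ e * (1 - η / 2) ^ L ∨
    ∃ Q : ℕ, ∃ a : ℤ, 1 ≤ Q ∧ Q ≤ b.factorial * (e + 1).factorial * b ^ (7 * (e * e) * L) ∧
      |F.coeff (e + 1) - a / Q| * (b : ℝ) ^ ((e + 1) * k) ≤ (b : ℝ) ^ (7 * (e * e) * L) := by
  have hb2 : (2 : ℝ) ≤ b := by exact_mod_cast hb
  have hb0 : (0 : ℝ) < b := by linarith
  obtain ⟨hg0, hg1⟩ := g0_bounds b hb η hη hη1
  obtain ⟨s, hs1, hs2⟩ := small_s b hb η hη hη1 (4 * e)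
  obtain ⟨ε, hε⟩ : ∃ ε, ε = 2 * b * (g0 b η) ^ s := ⟨_, rfl⟩
  have hε0 : 0 ≤ ε := by rw [hε]; have := pow_nonneg hg0 s; positivity
  rw [← hε] at hs2
  refine ⟨s, hs1, fun k L hL1 hLk w hw i F hF => ?_⟩
  obtain ⟨E, hE⟩ : ∃ E, E = e * L := ⟨_, rfl⟩
  have hE1 : 1 ≤ E := by rw [hE]; exact Nat.mul_pos he hL1
  have hEk : 5 * E ≤ k := by rw [hE]; calc 5 * (e * L) = 5 * e * L := by ring
                                   _ ≤ k := hLk
  obtain ⟨J, hJ⟩ : ∃ J, J = 2 * E + 2 := ⟨_, rfl⟩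
  have hC1 : (1 - η) ^ L ≤ (1 - η / 2) ^ L := pow_le_pow_left₀ (by linarith) (by linarith) L
  have hC2 : (1 - η) ^ L * (1 + 2 * b * (g0 b η) ^ s) ^ J ≤ (1 - η / 2) ^ L := by
    rw [← hε]
    calc (1 - η) ^ L * (1 + ε) ^ J ≤ (1 - η) ^ L * (1 + ε) ^ (4 * e * L) := by
          apply mul_le_mul_of_nonneg_left _ (pow_nonneg (by linarith) _)
          apply pow_le_pow_right₀ (by linarith)
          rw [mul_assoc, ← hE]
          omega
      _ = ((1 - η) * (1 + ε) ^ (4 * e)) ^ L := by rw [mul_pow, ← pow_mul]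
      _ ≤ (1 - η / 2) ^ L := pow_le_pow_left₀ (mul_nonneg (by linarith) (by positivity)) hs2 L
  by_cases hcase : ∀ l, L * T e ≤ l → l ≤ L * T e + (e + 1) * (k - J - E) → ∃ g : ℕ, 0 < g ∧ g < b ^ E ∧
      nn (b.factorial * ((e + 1).factorial * F.coeff (e + 1)) * (b : ℝ) ^ l * g) ≤ 1 / (b : ℝ) ^ J
  · right
    obtain ⟨Q, a, hQ1, hQ2, hQ3⟩ := dichotomy b E J hb (by omega) (L * T e) (L * T e + (e + 1) * (k - J - E)) (by omega) _ hcase
    obtain ⟨f, hf⟩ : ∃ f : ℕ, f = b.factorial * (e + 1).factorial := ⟨_, rfl⟩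
    have hf1 : 1 ≤ f := by rw [hf]; exact Nat.mul_pos b.factorial_pos (Nat.factorial_pos _)
    have hfr : (1 : ℝ) ≤ (f : ℝ) := by exact_mod_cast hf1
    have hT := T_le e
    have hLT : L * T e ≤ e * E := by
      rw [hE]
      calc L * T e ≤ L * (e * e) := Nat.mul_le_mul_left _ hT
        _ = _ := by ring
    have heE : E ≤ e * E := Nat.le_mul_of_pos_left _ he
    have he2 : e ≤ e * E := Nat.le_mul_of_pos_right _ hE1
    have h7 : 7 * (e * e) * L = 7 * (e * E) := by rw [hE]; ring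
    refine ⟨f * Q, a, Nat.mul_pos hf1 hQ1, ?_, ?_⟩
    · rw [← hf]
      apply Nat.mul_le_mul_left
      refine hQ2.trans (Nat.pow_le_pow_right (by omega) ?_)
      rw [h7]
      omega
    · have h1 : |F.coeff (e + 1) - a / ((f * Q : ℕ) : ℝ)| ≤ |b.factorial * ((e + 1).factorial * F.coeff (e + 1)) - a / Q| := by
        have hQr : (0 : ℝ) < Q := by exact_mod_cast hQ1
        have h2 : b.factorial * ((e + 1).factorial * F.coeff (e + 1)) - a / Q = f * (F.coeff (e + 1) - a / ((f * Q : ℕ) : ℝ)) := by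
          have : (f : ℝ) = b.factorial * (e + 1).factorial := by rw [hf]; push_cast; ring
          push_cast
          rw [mul_sub, ← mul_assoc, ← this]
          congr 1
          field_simp
        rw [h2, abs_mul, abs_of_pos (by positivity : (0 : ℝ) < f)]
        have := abs_nonneg (F.coeff (e + 1) - a / ((f * Q : ℕ) : ℝ))
        nlinarith
      have h3 : |b.factorial * ((e + 1).factorial * F.coeff (e + 1)) - a / Q| * (b : ℝ) ^ ((e + 1) * k) ≤ (b : ℝ) ^ (7 * (e * e) * L) := by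
        obtain ⟨X, hX⟩ : ∃ X, X = (e + 1) * (J + E) - J - L * T e := ⟨_, rfl⟩
        have hexp : (e + 1) * k = (J + (L * T e + (e + 1) * (k - J - E))) + X := by
          have q1 : (e + 1) * k = (e + 1) * (k - J - E) + (e + 1) * (J + E) := by
            rw [← mul_add]
            congr 1
            omega
          have q2 : (e + 1) * (J + E) = J + E + e * J + e * E := by ring
          have q3 : L * T e + J ≤ (e + 1) * (J + E) := by rw [q2]; omega
          omega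
        have hXle : E + X ≤ 7 * (e * e) * L := by
          have q2 : (e + 1) * (J + E) = J + E + e * J + e * E := by ring
          have q4 : e * J = 2 * (e * E) + 2 * e := by rw [hJ]; ring
          rw [h7]
          omega
        rw [hexp, pow_add, ← mul_assoc]
        calc |b.factorial * ((e + 1).factorial * F.coeff (e + 1)) - a / Q| * (b : ℝ) ^ (J + (L * T e + (e + 1) * (k - J - E))) * (b : ℝ) ^ X ≤
            (b : ℝ) ^ E * (b : ℝ) ^ X := mul_le_mul_of_nonneg_right hQ3 (by positivity)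
          _ = (b : ℝ) ^ (E + X) := by rw [← pow_add]
          _ ≤ _ := pow_le_pow_right₀ (by linarith) hXle
      exact (mul_le_mul_of_nonneg_right h1 (by positivity)).trans h3
  · left
    push Not at hcase
    obtain ⟨l, hl1, hl2, hl⟩ := hcase
    have h0 : (0 : ℝ) ≤ 1 - η / 2 := by linarith
    apply weyl_core hb hη L J s hs1 ((1 - η / 2) ^ L) (pow_nonneg h0 _) hC1 hC2 e he k (l - L * T e) (by rw [← hE]; omega)
      (by rw [← hE]; omega) w hw i F hF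
    intro g hg0 hg1
    rw [← hE] at hg1
    rw [show L * T e + (l - L * T e) = l by omega]
    exact hl g hg0 hg1

/-- moments, if the number of the frequencies with a large value is bounded -/
lemma abs_moment (M Lm : ℕ) (hLm : 1 ≤ Lm) (W : ℕ → ℝ) (hW1 : ∀ t, W t ≤ 1) (Mj : ℕ → ℕ → Prop) [∀ L, DecidablePred (Mj L)]
    (y c0 C1 B : ℝ) (hy : 0 ≤ y) (hc0 : 0 ≤ c0) (hC1 : 0 ≤ C1) (hB : 0 ≤ B) (hyB : B * y ≤ 1 / 2)
    (hmin : ∀ t L, 1 ≤ L → L ≤ Lm → ¬ Mj L t → W t ≤ c0 * y ^ L)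
    (hcnt : ∀ L, (((range M).filter (Mj L)).card : ℝ) ≤ C1 * B ^ L) :
    ∑ t ∈ range M, W t ≤ C1 * B * (1 + c0) + M * (c0 * y ^ Lm) := by
  obtain ⟨χ, hχ⟩ : ∃ χ : ℕ → ℕ → ℝ, ∀ L t, χ L t = if Mj L t then 1 else 0 := ⟨_, fun _ _ => rfl⟩
  have hχ0 : ∀ L t, 0 ≤ χ L t := fun L t => by rw [hχ]; split_ifs <;> norm_num
  have hpt : ∀ t, ∀ L, 1 ≤ L → L ≤ Lm → W t ≤ χ 1 t + ∑ l ∈ Ico 1 L, c0 * y ^ l * χ (l + 1) t + c0 * y ^ L := by
    intro t L hL
    induction L, hL using Nat.le_induction with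
    | base =>
      intro h8
      rw [Ico_self, sum_empty, add_zero]
      have h4 := mul_nonneg hc0 (pow_nonneg hy 1)
      by_cases h : Mj 1 t
      · rw [hχ, if_pos h]
        have h1 := hW1 t
        linarith
      · have h1 := hmin t 1 le_rfl h8 h
        have h2 := hχ0 1 t
        linarith
    | succ L hL ih =>
      intro h8
      have h1 := ih (by omega)
      rw [sum_Ico_succ_top hL]
      by_cases h : Mj (L + 1) t
      · rw [hχ (L + 1), if_pos h, mul_one]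
        have h2 := mul_nonneg hc0 (pow_nonneg hy (L + 1))
        linarith
      · have h1 := hmin t (L + 1) (by omega) h8 h
        have h2 := hχ0 1 t
        have h3 : 0 ≤ ∑ l ∈ Ico 1 L, c0 * y ^ l * χ (l + 1) t :=
          sum_nonneg fun l _ => mul_nonneg (mul_nonneg hc0 (pow_nonneg hy _)) (hχ0 _ _)
        have h4 : 0 ≤ c0 * y ^ L * χ (L + 1) t := mul_nonneg (mul_nonneg hc0 (pow_nonneg hy _)) (hχ0 _ _)
        linarith
  have hsumχ : ∀ L, ∑ t ∈ range M, χ L t ≤ C1 * B ^ L := by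
    intro L
    refine le_trans (le_of_eq ?_) (hcnt L)
    simp only [hχ]
    rw [sum_boole]
  refine (sum_le_sum (fun t (_ : t ∈ range M) => hpt t Lm hLm le_rfl)).trans ?_
  rw [sum_add_distrib, sum_add_distrib, sum_comm, sum_const, card_range, nsmul_eq_mul]
  have t1 : ∑ t ∈ range M, χ 1 t ≤ C1 * B := by have := hsumχ 1; rwa [pow_one] at this
  have t2 : ∑ l ∈ Ico 1 Lm, ∑ t ∈ range M, c0 * y ^ l * χ (l + 1) t ≤ C1 * B * c0 := by
    have h1 : ∀ l ∈ Ico 1 Lm, ∑ t ∈ range M, c0 * y ^ l * χ (l + 1) t ≤ (C1 * B * c0) * (1 / 2) ^ l := by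
      intro l _
      rw [← mul_sum]
      calc c0 * y ^ l * ∑ t ∈ range M, χ (l + 1) t ≤ c0 * y ^ l * (C1 * B ^ (l + 1)) :=
            mul_le_mul_of_nonneg_left (hsumχ _) (mul_nonneg hc0 (pow_nonneg hy _))
        _ = (C1 * B * c0) * (B * y) ^ l := by rw [mul_pow]; ring
        _ ≤ _ := mul_le_mul_of_nonneg_left (pow_le_pow_left₀ (mul_nonneg hB hy) hyB l) (by positivity)
    refine (sum_le_sum h1).trans ?_
    rw [← mul_sum]
    have h2 : ∀ m : ℕ, 1 ≤ m → ∑ l ∈ Ico 1 m, (1 / 2 : ℝ) ^ l ≤ 1 - (1 / 2) ^ (m - 1) := by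
      intro m hm
      induction m, hm using Nat.le_induction with
      | base => simp
      | succ m hm ih =>
        rw [sum_Ico_succ_top hm]
        have : (1 / 2 : ℝ) ^ (m - 1) = 2 * (1 / 2) ^ m := by
          obtain ⟨j, rfl⟩ : ∃ j, m = j + 1 := ⟨m - 1, by omega⟩
          rw [Nat.add_sub_cancel, pow_succ]
          ring
        rw [this] at ih
        rw [Nat.add_sub_cancel]
        linarith
    have h3 := h2 Lm hLm
    have h4 : (0 : ℝ) ≤ (1 / 2) ^ (Lm - 1) := by positivity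
    calc (C1 * B * c0) * ∑ l ∈ Ico 1 Lm, (1 / 2 : ℝ) ^ l ≤ (C1 * B * c0) * 1 :=
          mul_le_mul_of_nonneg_left (by linarith) (by positivity)
      _ = _ := mul_one _
  linarith

lemma card_near (S : Finset ℕ) (u ρ : ℝ) (hρ : 0 ≤ ρ) (h : ∀ t ∈ S, |(t : ℝ) - u| ≤ ρ) : (S.card : ℝ) ≤ 2 * ρ + 1 := by
  have h1 : S.card ≤ (Icc ⌈u - ρ⌉ ⌊u + ρ⌋).card := by
    apply card_le_card_of_injOn (fun t : ℕ => (t : ℤ))
    · intro t ht
      have h2 := abs_le.1 (h t ht)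
      simp only [coe_Icc, Set.mem_Icc]
      constructor
      · apply Int.ceil_le.2
        push_cast
        linarith [h2.1]
      · apply Int.le_floor.2
        push_cast
        linarith [h2.2]
    · intro t _ t' _ h
      simp only at h
      exact_mod_cast h
  rw [Int.card_Icc] at h1
  have h2 : (S.card : ℝ) ≤ (((⌊u + ρ⌋ + 1 - ⌈u - ρ⌉).toNat : ℕ) : ℝ) := by exact_mod_cast h1
  refine h2.trans ?_
  have h3 : ((⌊u + ρ⌋ + 1 - ⌈u - ρ⌉ : ℤ) : ℝ) ≤ 2 * ρ + 1 := by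
    push_cast
    have := Int.floor_le (u + ρ)
    have := Int.le_ceil (u - ρ)
    linarith
  rcases le_total 0 (⌊u + ρ⌋ + 1 - ⌈u - ρ⌉) with h4 | h4
  · have h5 : (((⌊u + ρ⌋ + 1 - ⌈u - ρ⌉).toNat : ℕ) : ℝ) = ((⌊u + ρ⌋ + 1 - ⌈u - ρ⌉ : ℤ) : ℝ) := by
      have := Int.toNat_of_nonneg h4
      exact_mod_cast this
    rw [h5]
    exact h3
  · rw [Int.toNat_of_nonpos h4]
    push_cast
    linarith

open Classical in
/-- the number of the frequencies close to rational numbers -/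
lemma count_near (M Qm : ℕ) (hM : 1 ≤ M) (α δ : ℝ) (hα : α ≠ 0) (hδ : 0 ≤ δ) :
    (((range M).filter (fun t : ℕ => ∃ Q : ℕ, ∃ a : ℤ, 1 ≤ Q ∧ Q ≤ Qm ∧ |(t : ℝ) * α / M - a / Q| ≤ δ)).card : ℝ) ≤
      Qm * ((2 * (Qm * (|α| + δ)) + 1) * (2 * (δ * M / |α|) + 1)) := by
  have hα0 : 0 < |α| := abs_pos.2 hα
  have hM0 : (0 : ℝ) < M := by exact_mod_cast hM
  obtain ⟨A, hA⟩ : ∃ A : ℕ, A = ⌊Qm * (|α| + δ)⌋₊ := ⟨_, rfl⟩
  have hA2 : (A : ℝ) ≤ Qm * (|α| + δ) := by rw [hA]; exact Nat.floor_le (by positivity)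
  have h1 : (range M).filter (fun t : ℕ => ∃ Q : ℕ, ∃ a : ℤ, 1 ≤ Q ∧ Q ≤ Qm ∧ |(t : ℝ) * α / M - a / Q| ≤ δ) ⊆
      (Icc 1 Qm).biUnion (fun Q => (Icc (-(A : ℤ)) A).biUnion (fun a => (range M).filter (fun t : ℕ => |(t : ℝ) * α / M - a / Q| ≤ δ))) := by
    intro t ht
    rw [mem_filter, mem_range] at ht
    obtain ⟨ht, Q, a, hQ1, hQ2, hQ⟩ := ht
    rw [mem_biUnion]
    refine ⟨Q, mem_Icc.2 ⟨hQ1, hQ2⟩, ?_⟩
    rw [mem_biUnion]
    refine ⟨a, ?_, mem_filter.2 ⟨mem_range.2 ht, hQ⟩⟩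
    have hQr : (0 : ℝ) < Q := by exact_mod_cast hQ1
    have h2 : |(a : ℝ)| ≤ Qm * (|α| + δ) := by
      have h3 : |(a : ℝ) / Q| ≤ |α| + δ := by
        have h4 : |(t : ℝ) * α / M| ≤ |α| := by
          rw [abs_div, abs_mul, abs_of_nonneg (Nat.cast_nonneg t), abs_of_pos hM0, div_le_iff₀ hM0, mul_comm]
          apply mul_le_mul_of_nonneg_left _ hα0.le
          exact_mod_cast ht.le
        have h5 : (a : ℝ) / Q = (t : ℝ) * α / M - ((t : ℝ) * α / M - a / Q) := by ring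
        rw [h5]
        exact (abs_sub _ _).trans (add_le_add h4 hQ)
      rw [abs_div, abs_of_pos hQr, div_le_iff₀ hQr] at h3
      refine h3.trans ?_
      rw [mul_comm]
      apply mul_le_mul_of_nonneg_right _ (by positivity)
      exact_mod_cast hQ2
    have h6 : a.natAbs ≤ A := by
      rw [hA]
      apply Nat.le_floor
      rw [Nat.cast_natAbs, Int.cast_abs]
      exact h2
    rw [mem_Icc]
    omega
  have h2 : ∀ Q ∈ Icc 1 Qm, ∀ a ∈ Icc (-(A : ℤ)) A, (((range M).filter (fun t : ℕ => |(t : ℝ) * α / M - a / Q| ≤ δ)).card : ℝ) ≤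
      2 * (δ * M / |α|) + 1 := by
    intro Q _ a _
    apply card_near _ ((a : ℝ) / Q * M / α) _ (by positivity)
    intro t ht
    rw [mem_filter] at ht
    have h3 : (t : ℝ) - (a : ℝ) / Q * M / α = ((t : ℝ) * α / M - a / Q) * (M / α) := by field_simp
    rw [h3, abs_mul, abs_div, abs_of_pos hM0]
    calc |(t : ℝ) * α / M - a / Q| * (M / |α|) ≤ δ * (M / |α|) := mul_le_mul_of_nonneg_right ht.2 (by positivity)
      _ = _ := by ring
  have h3 : (((range M).filter (fun t : ℕ => ∃ Q : ℕ, ∃ a : ℤ, 1 ≤ Q ∧ Q ≤ Qm ∧ |(t : ℝ) * α / M - a / Q| ≤ δ)).card : ℝ) ≤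
      ∑ Q ∈ Icc 1 Qm, ∑ a ∈ Icc (-(A : ℤ)) A, (((range M).filter (fun t : ℕ => |(t : ℝ) * α / M - a / Q| ≤ δ)).card : ℝ) := by
    have h4 := (card_le_card h1).trans card_biUnion_le
    have h5 : ∑ Q ∈ Icc 1 Qm, ((Icc (-(A : ℤ)) A).biUnion (fun a => (range M).filter (fun t : ℕ => |(t : ℝ) * α / M - a / Q| ≤ δ))).card ≤
        ∑ Q ∈ Icc 1 Qm, ∑ a ∈ Icc (-(A : ℤ)) A, ((range M).filter (fun t : ℕ => |(t : ℝ) * α / M - a / Q| ≤ δ)).card :=
      sum_le_sum fun Q _ => card_biUnion_le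
    exact_mod_cast h4.trans h5
  refine h3.trans ?_
  calc ∑ Q ∈ Icc 1 Qm, ∑ a ∈ Icc (-(A : ℤ)) A, (((range M).filter (fun t : ℕ => |(t : ℝ) * α / M - a / Q| ≤ δ)).card : ℝ) ≤
      ∑ Q ∈ Icc 1 Qm, ∑ a ∈ Icc (-(A : ℤ)) A, (2 * (δ * M / |α|) + 1) := sum_le_sum fun Q hQ => sum_le_sum fun a ha => h2 Q hQ a ha
    _ = (Qm : ℝ) * ((2 * A + 1) * (2 * (δ * M / |α|) + 1)) := by
        rw [sum_const, sum_const, Nat.card_Icc, Int.card_Icc, nsmul_eq_mul, nsmul_eq_mul, Nat.add_sub_cancel]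
        congr 2
        have : ((A : ℤ) + 1 - -(A : ℤ)).toNat = 2 * A + 1 := by omega
        rw [this]
        push_cast
        ring
    _ ≤ _ := by
        apply mul_le_mul_of_nonneg_left _ (Nat.cast_nonneg _)
        apply mul_le_mul_of_nonneg_right _ (by positivity)
        linarith

end Pool.Agent.H92.Pd
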