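import Pool.Agent.H92.Pd.A2

set_option autoImplicit false

/-! Polynomials at integers with independent random digits: the moments. -/

namespace Pool.Agent.H92.Pd
open Finset Polynomial
open Pool.Agent.H807R2.Dav
open Pool.Agent.TH872.Sq

/-- the dependence on the leading coefficient -/
noncomputable def Ga (Φ α : ℝ) : ℝ := Φ * ((|α| + 1) * (1 / |α| + 1))

lemma cnt_num (f z Φ a δ m : ℝ) (hf : 1 ≤ f) (hz : 1 ≤ z) (hΦ : 1 ≤ Φ) (ha : 0 < a) (hδz : δ ≤ z) (hm0 : 0 ≤ m)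
    (hm : m ≤ z * Φ) :
    f * z * ((2 * (f * z * (a + δ)) + 1) * (2 * (m / a) + 1)) ≤ 6 * f ^ 2 * (Φ * ((a + 1) * (1 / a + 1))) * z ^ 4 := by
  have hf0 : 0 < f := by linarith
  have hz0 : 0 < z := by linarith
  have hΦ0 : 0 < Φ := by linarith
  have h3 : 2 * (f * z * (a + δ)) + 1 ≤ 3 * (f * z ^ 2 * (a + 1)) := by
    have q0 : a ≤ z * a := le_mul_of_one_le_left ha.le hz
    have q1 : a + δ ≤ z * (a + 1) := by rw [mul_add, mul_one]; exact add_le_add q0 hδz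
    have q2 : f * z * (a + δ) ≤ f * z * (z * (a + 1)) := mul_le_mul_of_nonneg_left q1 (by positivity)
    have q3 : 1 ≤ f * z ^ 2 * (a + 1) := by
      have r0 : 1 ≤ z ^ 2 := one_le_pow₀ hz
      have r1 : 1 ≤ f * z ^ 2 := one_le_mul_of_one_le_of_one_le hf r0
      exact one_le_mul_of_one_le_of_one_le r1 (by linarith)
    have q4 : f * z * (z * (a + 1)) = f * z ^ 2 * (a + 1) := by ring
    rw [q4] at q2
    linarith
  have h4 : 2 * (m / a) + 1 ≤ 2 * (z * (Φ * (1 / a + 1))) := by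
    have q1 : m / a ≤ z * Φ / a := div_le_div_of_nonneg_right hm ha.le
    have q2 : 1 ≤ z * Φ := one_le_mul_of_one_le_of_one_le hz hΦ
    have q3 : z * (Φ * (1 / a + 1)) = z * Φ / a + z * Φ := by field_simp
    rw [q3]
    linarith
  have h5 : 0 ≤ 2 * (m / a) + 1 := by positivity
  calc f * z * ((2 * (f * z * (a + δ)) + 1) * (2 * (m / a) + 1)) ≤
      f * z * ((3 * (f * z ^ 2 * (a + 1))) * (2 * (z * (Φ * (1 / a + 1))))) := by
        apply mul_le_mul_of_nonneg_left _ (by positivity)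
        exact mul_le_mul h3 h4 h5 (by positivity)
    _ = _ := by ring

/-- **Moments.** The number of frequencies with large exponential sums is bounded. -/
theorem moment (b e : ℕ) (hb : 2 ≤ b) (he : 1 ≤ e) (η : ℝ) (hη : 0 < η) : ∃ p : ℕ, ∃ C : ℝ, 1 ≤ p ∧ 0 < C ∧
    ∀ (k M : ℕ) (Φ : ℝ), 1 ≤ M → 1 ≤ Φ → (M : ℝ) ≤ Φ * (b : ℝ) ^ ((e + 1) * k) → ∀ (w : ℕ → ℕ → ℝ), Dig b η w →
    ∀ (i : ℕ) (F : ℝ[X]), F.natDegree ≤ e + 1 → F.coeff (e + 1) ≠ 0 →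
    ∑ t ∈ range M, ‖∑ n ∈ range (b ^ k), ((P b w i k n : ℝ) : ℂ) * ee ((t : ℝ) * (F.eval (n : ℝ) / M))‖ ^ (2 * p) ≤
      C * Ga Φ (F.coeff (e + 1)) := by
  classical
  by_cases hη1 : η ≤ 1
  swap
  · exact ⟨1, 1, le_rfl, one_pos, fun k M Φ _ _ _ w hw => absurd (eta_le hw) hη1⟩
  have hb2 : (2 : ℝ) ≤ b := by exact_mod_cast hb
  have hb0 : (0 : ℝ) < b := by linarith
  obtain ⟨s, hs1, hweyl⟩ := weyl_scale b e hb he η hη hη1
  obtain ⟨τ, hτ⟩ : ∃ τ, τ = 1 - η / 2 := ⟨_, rfl⟩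
  have hτ0 : 0 ≤ τ := by rw [hτ]; linarith
  have hτ1 : τ < 1 := by rw [hτ]; linarith
  rw [← hτ] at hweyl
  obtain ⟨A, hA⟩ : ∃ A, A = 7 * (e * e) := ⟨_, rfl⟩
  rw [← hA] at hweyl
  obtain ⟨Z, hZ⟩ : ∃ Z, Z = 5 * e * (e + 1) := ⟨_, rfl⟩
  obtain ⟨B, hB⟩ : ∃ B : ℝ, B = (b : ℝ) ^ (4 * A) := ⟨_, rfl⟩
  obtain ⟨D, hD⟩ : ∃ D : ℝ, D = (b : ℝ) ^ Z := ⟨_, rfl⟩
  have hB1 : 1 ≤ B := by rw [hB]; exact one_le_pow₀ (by linarith)
  have hD1 : 1 ≤ D := by rw [hD]; exact one_le_pow₀ (by linarith)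
  have hBD : (0 : ℝ) < 1 / (2 * (B * D)) := by positivity
  obtain ⟨q₀, hq₀⟩ := exists_pow_lt_of_lt_one hBD hτ1
  obtain ⟨q, hq⟩ : ∃ q, q = q₀ + 1 := ⟨_, rfl⟩
  obtain ⟨y, hy⟩ : ∃ y, y = τ ^ (2 * q) := ⟨_, rfl⟩
  have hy0 : 0 ≤ y := by rw [hy]; exact pow_nonneg hτ0 _
  have hyb : y ≤ 1 / (2 * (B * D)) := by
    rw [hy, hq]
    exact (pow_le_pow_of_le_one hτ0 hτ1.le (by omega)).trans hq₀.le
  have hBDy : B * D * y ≤ 1 / 2 := by
    calc B * D * y ≤ B * D * (1 / (2 * (B * D))) := mul_le_mul_of_nonneg_left hyb (by positivity)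
      _ = 1 / 2 := by field_simp
  have hyB : B * y ≤ 1 / 2 := by
    refine le_trans ?_ hBDy
    have : 0 ≤ B * y := by positivity
    calc B * y ≤ D * (B * y) := le_mul_of_one_le_left this hD1
      _ = B * D * y := by ring
  have hyD : D * y ≤ 1 := by
    have h1 : D * y ≤ B * D * y := by
      have : 0 ≤ D * y := by positivity
      calc D * y ≤ B * (D * y) := le_mul_of_one_le_left this hB1
        _ = B * D * y := by ring
    linarith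
  obtain ⟨c0, hc0⟩ : ∃ c0 : ℝ, c0 = (e : ℝ) ^ (2 * q) := ⟨_, rfl⟩
  have hc00 : 0 ≤ c0 := by rw [hc0]; positivity
  obtain ⟨f, hf⟩ : ∃ f : ℕ, f = b.factorial * (e + 1).factorial := ⟨_, rfl⟩
  have hf1 : 1 ≤ f := by rw [hf]; exact Nat.mul_pos b.factorial_pos (Nat.factorial_pos _)
  have hfr : (1 : ℝ) ≤ f := by exact_mod_cast hf1
  rw [← hf] at hweyl
  refine ⟨2 ^ e * s * q, 6 * (f : ℝ) ^ 2 * B * (1 + c0) + (c0 + 1) * D, ?_, by positivity, fun k M Φ hM1 hΦ hM w hw i F hF hα => ?_⟩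
  · exact Nat.mul_pos (Nat.mul_pos (by positivity) hs1) (by omega)
  obtain ⟨α, hαd⟩ : ∃ α, α = F.coeff (e + 1) := ⟨_, rfl⟩
  rw [← hαd] at hα ⊢
  obtain ⟨G, hG⟩ : ∃ G, G = Ga Φ α := ⟨_, rfl⟩
  rw [← hG]
  have hα0 : 0 < |α| := abs_pos.2 hα
  have huv : 1 ≤ (|α| + 1) * (1 / |α| + 1) := by
    have : 0 < 1 / |α| := by positivity
    exact one_le_mul_of_one_le_of_one_le (by linarith) (by linarith)
  have hGΦ : Φ ≤ G := by
    rw [hG]
    unfold Ga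
    exact le_mul_of_one_le_right (by linarith) huv
  have hG0 : 0 < G := by linarith
  obtain ⟨V, hV⟩ : ∃ V : ℕ → ℝ, ∀ t, V t = ‖∑ n ∈ range (b ^ k), ((P b w i k n : ℝ) : ℂ) * ee ((t : ℝ) * (F.eval (n : ℝ) / M))‖ :=
    ⟨_, fun _ => rfl⟩
  simp only [← hV]
  have hV0 : ∀ t, 0 ≤ V t := fun t => by rw [hV]; exact norm_nonneg _
  have hV1 : ∀ t, V t ≤ 1 := by
    intro t
    rw [hV]
    exact norm_avg (by omega) hw i k _ 1 (fun n => by rw [norm_ee])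
  have hM0 : (0 : ℝ) < M := by exact_mod_cast hM1
  have hmainc : 0 ≤ 6 * (f : ℝ) ^ 2 * B * (1 + c0) := by positivity
  rcases Nat.lt_or_ge k (5 * e) with hk | hk
  · calc ∑ t ∈ range M, V t ^ (2 * (2 ^ e * s * q)) ≤ ∑ t ∈ range M, (1 : ℝ) := sum_le_sum fun t _ => pow_le_one₀ (hV0 t) (hV1 t)
      _ = M := by rw [sum_const, card_range, nsmul_eq_mul, mul_one]
      _ ≤ Φ * (b : ℝ) ^ ((e + 1) * k) := hM
      _ ≤ G * D := by
          apply mul_le_mul hGΦ _ (by positivity) hG0.le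
          rw [hD, hZ]
          apply pow_le_pow_right₀ (by linarith)
          calc (e + 1) * k ≤ (e + 1) * (5 * e) := Nat.mul_le_mul_left _ hk.le
            _ = _ := by ring
      _ = D * G := mul_comm _ _
      _ ≤ _ := by
          apply mul_le_mul_of_nonneg_right _ hG0.le
          have h1 : 0 ≤ c0 * D := by positivity
          linarith
  obtain ⟨Lm, hLm⟩ : ∃ Lm, Lm = k / (5 * e) := ⟨_, rfl⟩
  have h5e : 0 < 5 * e := by omega
  have hLm1 : 1 ≤ Lm := by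
    rw [hLm]
    exact (Nat.one_le_div_iff h5e).2 hk
  have hLmk : 5 * e * Lm ≤ k := by rw [hLm]; exact Nat.mul_div_le k _
  obtain ⟨Mj, hMj⟩ : ∃ Mj : ℕ → ℕ → Prop, ∀ L, Mj L = fun t : ℕ => ∃ Q : ℕ, ∃ a : ℤ, 1 ≤ Q ∧ Q ≤ f * b ^ (A * L) ∧
      |(t : ℝ) * α / M - a / Q| ≤ (b : ℝ) ^ (A * L) / (b : ℝ) ^ ((e + 1) * k) := ⟨fun L => _, fun _ => rfl⟩
  have hmin : ∀ t L, 1 ≤ L → L ≤ Lm → ¬ Mj L t → V t ^ (2 * (2 ^ e * s * q)) ≤ c0 * y ^ L := by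
    intro t L hL1 hL2 hnot
    have hLk : 5 * e * L ≤ k := (Nat.mul_le_mul_left _ hL2).trans hLmk
    have hev : ∀ n : ℕ, (C ((t : ℝ) / M) * F).eval (n : ℝ) = (t : ℝ) * (F.eval (n : ℝ) / M) := by
      intro n
      rw [eval_mul, eval_C]
      ring
    rcases hweyl k L hL1 hLk w hw i (C ((t : ℝ) / M) * F) ((natDegree_C_mul_le _ _).trans hF) with h | ⟨Q, a, hQ1, hQ2, hQ3⟩
    · simp only [hev] at h
      rw [← hV] at h
      calc V t ^ (2 * (2 ^ e * s * q)) = (V t ^ (2 ^ e * s)) ^ (2 * q) := by rw [← pow_mul]; congr 1; ring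
        _ ≤ (e * τ ^ L) ^ (2 * q) := pow_le_pow_left₀ (pow_nonneg (hV0 t) _) h _
        _ = _ := by rw [mul_pow, hc0, hy, ← pow_mul, ← pow_mul, mul_comm L]
    · exfalso
      apply hnot
      rw [hMj]
      refine ⟨Q, a, hQ1, hQ2, ?_⟩
      rw [coeff_C_mul, ← hαd] at hQ3
      rw [le_div_iff₀ (by positivity)]
      refine le_trans (le_of_eq ?_) hQ3
      congr 3
      ring
  have hcnt : ∀ L, (((range M).filter (Mj L)).card : ℝ) ≤ 6 * (f : ℝ) ^ 2 * G * B ^ L := by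
    intro L
    obtain ⟨z, hz⟩ : ∃ z : ℝ, z = (b : ℝ) ^ (A * L) := ⟨_, rfl⟩
    have hz1 : 1 ≤ z := by rw [hz]; exact one_le_pow₀ (by linarith)
    have hzB : B ^ L = z ^ 4 := by rw [hz, hB, ← pow_mul, ← pow_mul]; congr 1; ring
    obtain ⟨δ, hδ⟩ : ∃ δ : ℝ, δ = z / (b : ℝ) ^ ((e + 1) * k) := ⟨_, rfl⟩
    have hbk : (1 : ℝ) ≤ (b : ℝ) ^ ((e + 1) * k) := one_le_pow₀ (by linarith)
    have hδ0 : 0 ≤ δ := by rw [hδ]; positivity
    have hδz : δ ≤ z := by rw [hδ]; exact div_le_self (by linarith) hbk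
    have hδM : δ * M ≤ z * Φ := by
      rw [hδ, div_mul_eq_mul_div, div_le_iff₀ (by positivity)]
      calc z * (M : ℝ) ≤ z * (Φ * (b : ℝ) ^ ((e + 1) * k)) := mul_le_mul_of_nonneg_left hM (by linarith)
        _ = _ := by ring
    have h1 := count_near M (f * b ^ (A * L)) hM1 α δ hα hδ0
    have h2 : (((range M).filter (Mj L)).card : ℝ) = (((range M).filter (fun t : ℕ => ∃ Q : ℕ, ∃ a : ℤ, 1 ≤ Q ∧ Q ≤ f * b ^ (A * L) ∧
        |(t : ℝ) * α / M - a / Q| ≤ δ)).card : ℝ) := by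
      rw [hMj, hδ, hz]
    rw [h2]
    refine h1.trans ?_
    rw [hzB, hG]
    unfold Ga
    have hQm : ((f * b ^ (A * L) : ℕ) : ℝ) = f * z := by rw [hz]; push_cast; ring
    rw [hQm]
    exact cnt_num f z Φ |α| δ (δ * M) hfr hz1 hΦ hα0 hδz (by positivity) hδM
  have hfin := abs_moment M Lm hLm1 (fun t => V t ^ (2 * (2 ^ e * s * q))) (fun t => pow_le_one₀ (hV0 t) (hV1 t)) Mj y c0
    (6 * (f : ℝ) ^ 2 * G) B hy0 hc00 (by positivity) (by linarith) hyB hmin hcnt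
  refine hfin.trans ?_
  have hlast : (M : ℝ) * (c0 * y ^ Lm) ≤ G * (c0 * D) := by
    have h1 : (b : ℝ) ^ ((e + 1) * k) ≤ D ^ Lm * D := by
      rw [hD, ← pow_mul, ← pow_add]
      apply pow_le_pow_right₀ (by linarith)
      have h2 : k ≤ 5 * e * (Lm + 1) := by
        rw [hLm]
        exact (Nat.lt_mul_div_succ k h5e).le
      calc (e + 1) * k ≤ (e + 1) * (5 * e * (Lm + 1)) := Nat.mul_le_mul_left _ h2
        _ = Z * Lm + Z := by rw [hZ]; ring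
    have h2 : D ^ Lm * y ^ Lm ≤ 1 := by rw [← mul_pow]; exact pow_le_one₀ (by positivity) hyD
    calc (M : ℝ) * (c0 * y ^ Lm) ≤ (G * (D ^ Lm * D)) * (c0 * y ^ Lm) := by
          apply mul_le_mul_of_nonneg_right _ (by positivity)
          exact hM.trans (mul_le_mul hGΦ h1 (by positivity) hG0.le)
      _ = G * (c0 * D) * (D ^ Lm * y ^ Lm) := by ring
      _ ≤ G * (c0 * D) * 1 := mul_le_mul_of_nonneg_left h2 (by positivity)
      _ = _ := mul_one _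
  have hDG : 0 ≤ D * G := by positivity
  have hexp : (6 * (f : ℝ) ^ 2 * B * (1 + c0) + (c0 + 1) * D) * G = 6 * (f : ℝ) ^ 2 * G * B * (1 + c0) + G * (c0 * D) + D * G := by ring
  rw [hexp]
  linarith

end Pool.Agent.H92.Pd
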