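import Pool.Agent.H92.Pd.A3
import Pool.Agent.TH872.Sq.W5

set_option autoImplicit false

/-! Nearly equal sums of independent random reals: the number of the solutions and the moments. -/

namespace Pool.Agent.H92.Pd
open Finset
open Pool.Agent.H807R2.Dav
open Pool.Agent.TH872.Sq

variable {α : Type} [Fintype α]

lemma mom_id (h : ℕ) (p x : α → ℝ) (τ : ℝ) : ((‖∑ n, ((p n : ℝ) : ℂ) * ee (τ * x n)‖ ^ (2 * h) : ℝ) : ℂ) =
    ∑ a : Fin h → α, ∑ c : Fin h → α, (((∏ j, p (a j)) * ∏ j, p (c j) : ℝ) : ℂ) * ee (τ * (∑ j, x (a j) - ∑ j, x (c j))) := by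
  classical
  obtain ⟨Z, hZ⟩ : ∃ Z : ℂ, Z = ∑ n, ((p n : ℝ) : ℂ) * ee (τ * x n) := ⟨_, rfl⟩
  rw [← hZ]
  have e1 : ∀ σ : ℝ, (∑ n, ((p n : ℝ) : ℂ) * ee (σ * x n)) ^ h = ∑ a : Fin h → α, ((∏ j, p (a j) : ℝ) : ℂ) * ee (σ * ∑ j, x (a j)) := by
    intro σ
    rw [Fintype.sum_pow]
    apply sum_congr rfl
    intro a _
    rw [prod_mul_distrib, ee_sum, mul_sum]
    push_cast
    rfl
  have e2 : (starRingEnd ℂ) Z = ∑ n, ((p n : ℝ) : ℂ) * ee ((-τ) * x n) := by
    rw [hZ, map_sum]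
    apply sum_congr rfl
    intro n _
    rw [map_mul, Complex.conj_ofReal, Pool.Agent.H373R2.T7.conj_ee, neg_mul]
  have e3 : ((‖Z‖ ^ (2 * h) : ℝ) : ℂ) = Z ^ h * ((starRingEnd ℂ) Z) ^ h := by
    rw [← mul_pow, Complex.mul_conj', ← pow_mul]
    push_cast
    rfl
  rw [e3, e2, hZ, e1 τ, e1 (-τ), sum_mul_sum]
  apply sum_congr rfl
  intro a _
  apply sum_congr rfl
  intro c _
  have e4 : ee (τ * (∑ j, x (a j) - ∑ j, x (c j))) = ee (τ * ∑ j, x (a j)) * ee (-τ * ∑ j, x (c j)) := by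
    rw [← ee_add]
    congr 1
    ring
  rw [e4]
  push_cast
  ring

lemma re_ee (x : ℝ) : (ee x).re = Real.cos (2 * Real.pi * x) := by
  unfold ee
  have : (2 * (Real.pi : ℂ) * Complex.I * (x : ℂ)) = ((2 * Real.pi * x : ℝ) : ℂ) * Complex.I := by push_cast; ring
  rw [this, Complex.exp_ofReal_mul_I_re]

lemma re_big (x : ℝ) (h : |x| ≤ 1 / 8) : 1 / 2 ≤ (ee x).re := by
  rw [re_ee, ← Real.cos_abs]
  have h1 : |2 * Real.pi * x| ≤ Real.pi / 3 := by
    rw [abs_mul, abs_of_pos (by positivity)]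
    nlinarith [Real.pi_pos, abs_nonneg x]
  rw [← Real.cos_pi_div_three]
  apply Real.cos_le_cos_of_nonneg_of_le_pi (abs_nonneg _) _ h1
  linarith [Real.pi_pos]

lemma det_big (M T r : ℕ) (hM : 1 ≤ M) (hT : 8 * r * T ≤ M) (X : ℝ) (hX : |X| ≤ r) :
    (T : ℝ) ^ 2 / 4 ≤ ‖∑ t ∈ range T, ee (((t : ℝ) / M) * X)‖ ^ 2 := by
  have hM0 : (0 : ℝ) < M := by exact_mod_cast hM
  have h1 : (T : ℝ) / 2 ≤ (∑ t ∈ range T, ee (((t : ℝ) / M) * X)).re := by
    rw [Complex.re_sum]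
    calc (T : ℝ) / 2 = ∑ t ∈ range T, (1 / 2 : ℝ) := by rw [sum_const, card_range, nsmul_eq_mul]; ring
      _ ≤ _ := by
          apply sum_le_sum
          intro t ht
          rw [mem_range] at ht
          apply re_big
          rw [abs_mul, abs_of_nonneg (by positivity : (0 : ℝ) ≤ (t : ℝ) / M), div_mul_eq_mul_div, div_le_iff₀ hM0]
          have ht' : (t : ℝ) ≤ T := by exact_mod_cast ht.le
          have hT' : (8 : ℝ) * r * T ≤ M := by exact_mod_cast hT
          have h2 : (t : ℝ) * |X| ≤ T * r := mul_le_mul ht' hX (abs_nonneg _) (Nat.cast_nonneg _)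
          linarith
  have h2 : (T : ℝ) / 2 ≤ ‖∑ t ∈ range T, ee (((t : ℝ) / M) * X)‖ := h1.trans (Complex.re_le_norm _)
  calc (T : ℝ) ^ 2 / 4 = ((T : ℝ) / 2) ^ 2 := by ring
    _ ≤ _ := pow_le_pow_left₀ (by positivity) h2 2

lemma sq_exp (T : ℕ) (M X : ℝ) : ((‖∑ t ∈ range T, ee (((t : ℝ) / M) * X)‖ ^ 2 : ℝ) : ℂ) =
    ∑ t ∈ range T, ∑ t' ∈ range T, ee ((((t : ℝ) - t') / M) * X) := by
  push_cast
  rw [← Complex.mul_conj', map_sum, sum_mul_sum]
  apply sum_congr rfl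
  intro t _
  apply sum_congr rfl
  intro t' _
  rw [Pool.Agent.H373R2.T7.conj_ee, ← ee_add]
  congr 1
  ring

lemma dist_sum (T t : ℕ) (U : ℕ → ℝ) (hU : ∀ s, 0 ≤ U s) (ht : t ∈ range T) :
    ∑ t' ∈ range T, U (Nat.dist t t') ≤ 2 * ∑ s ∈ range T, U s := by
  have hmem : ∀ t' ∈ range T, Nat.dist t t' ∈ range T := by
    intro t' ht'
    rw [mem_range] at *
    unfold Nat.dist
    omega
  rw [← sum_fiberwise_of_maps_to hmem, mul_sum]
  apply sum_le_sum
  intro s _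
  have h1 : ∀ t' ∈ (range T).filter (fun t' => Nat.dist t t' = s), U (Nat.dist t t') = U s := by
    intro t' ht'
    rw [(mem_filter.1 ht').2]
  rw [sum_congr rfl h1, sum_const, nsmul_eq_mul]
  apply mul_le_mul_of_nonneg_right _ (hU s)
  have h2 : (range T).filter (fun t' => Nat.dist t t' = s) ⊆ {t + s, t - s} := by
    intro t' ht'
    rw [mem_filter] at ht'
    have h3 := ht'.2
    unfold Nat.dist at h3
    rw [mem_insert, mem_singleton]
    omega
  have h3 := (card_le_card h2).trans card_le_two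
  exact_mod_cast h3

open Classical in
/-- the probability of a nearly equal pair of sums is bounded by the moments -/
theorem near_le (h r : ℕ) (hr : 1 ≤ r) (p x : α → ℝ) (hp : ∀ n, 0 ≤ p n) (hp1 : ∑ n, p n = 1) (M : ℕ) (hM : 1 ≤ M) :
    (M : ℝ) * ∑ a : Fin h → α, ∑ c : Fin h → α, (if |∑ j, x (a j) - ∑ j, x (c j)| ≤ r then (∏ j, p (a j)) * ∏ j, p (c j) else 0) ≤
      128 * r * ∑ t ∈ range M, ‖∑ n, ((p n : ℝ) : ℂ) * ee ((t : ℝ) * (x n / M))‖ ^ (2 * h) := by
  have hM0 : (0 : ℝ) < M := by exact_mod_cast hM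
  have hr0 : (1 : ℝ) ≤ r := by exact_mod_cast hr
  have hw0 : ∀ a : Fin h → α, 0 ≤ ∏ j, p (a j) := fun a => prod_nonneg fun j _ => hp _
  obtain ⟨w, hw⟩ : ∃ w : (Fin h → α) → (Fin h → α) → ℝ, w = fun a c => (∏ j, p (a j)) * ∏ j, p (c j) := ⟨_, rfl⟩
  have hw0' : ∀ a c, 0 ≤ w a c := fun a c => by rw [hw]; exact mul_nonneg (hw0 a) (hw0 c)
  obtain ⟨Dx, hDx⟩ : ∃ Dx : (Fin h → α) → (Fin h → α) → ℝ, Dx = fun a c => ∑ j, x (a j) - ∑ j, x (c j) := ⟨_, rfl⟩
  obtain ⟨W, hW⟩ : ∃ W : ℝ, W = ∑ a : Fin h → α, ∑ c : Fin h → α, (if |Dx a c| ≤ r then w a c else 0) := ⟨_, rfl⟩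
  have hWeq : ∑ a : Fin h → α, ∑ c : Fin h → α, (if |∑ j, x (a j) - ∑ j, x (c j)| ≤ r then (∏ j, p (a j)) * ∏ j, p (c j) else 0) = W := by
    rw [hW, hw, hDx]
  rw [hWeq]
  obtain ⟨U, hU⟩ : ∃ U : ℕ → ℝ, U = fun t : ℕ => ‖∑ n, ((p n : ℝ) : ℂ) * ee ((t : ℝ) * (x n / M))‖ ^ (2 * h) := ⟨_, rfl⟩
  have hU0 : ∀ t, 0 ≤ U t := fun t => by rw [hU]; positivity
  have hUs : ∑ t ∈ range M, ‖∑ n, ((p n : ℝ) : ℂ) * ee ((t : ℝ) * (x n / M))‖ ^ (2 * h) = ∑ t ∈ range M, U t := by rw [hU]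
  rw [hUs]
  have htot : ∑ a : Fin h → α, ∏ j, p (a j) = 1 := by
    rw [← Fintype.sum_pow, hp1, one_pow]
  rcases Nat.lt_or_ge M (8 * r) with hsm | hbig
  · have hW1 : W ≤ 1 := by
      rw [hW]
      calc ∑ a : Fin h → α, ∑ c : Fin h → α, (if |Dx a c| ≤ r then w a c else 0) ≤ ∑ a : Fin h → α, ∑ c : Fin h → α, w a c := by
            apply sum_le_sum
            intro a _
            apply sum_le_sum
            intro c _
            split_ifs
            · exact le_rfl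
            · exact hw0' a c
        _ = 1 := by
            rw [hw]
            simp only [← mul_sum, htot, mul_one]
    have hU1 : U 0 = 1 := by
      rw [hU]
      simp only [Nat.cast_zero, zero_mul, ee_zero, mul_one]
      have : ∑ n, ((p n : ℝ) : ℂ) = 1 := by rw [← Complex.ofReal_sum, hp1, Complex.ofReal_one]
      rw [this, norm_one, one_pow]
    have h1 : 1 ≤ ∑ t ∈ range M, U t := by
      rw [← hU1]
      exact single_le_sum (fun t _ => hU0 t) (mem_range.2 (by omega))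
    have h2 : (M : ℝ) ≤ 8 * r := by exact_mod_cast hsm.le
    have h3 : 0 ≤ W := by
      rw [hW]
      apply sum_nonneg
      intro a _
      apply sum_nonneg
      intro c _
      split_ifs
      · exact hw0' a c
      · exact le_rfl
    calc (M : ℝ) * W ≤ (8 * r) * 1 := mul_le_mul h2 hW1 h3 (by positivity)
      _ ≤ 128 * r * 1 := by linarith
      _ ≤ _ := mul_le_mul_of_nonneg_left h1 (by positivity)
  · obtain ⟨T, hT⟩ : ∃ T, T = M / (8 * r) := ⟨_, rfl⟩
    have h8 : 0 < 8 * r := by omega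
    have hT1 : 1 ≤ T := by rw [hT]; exact (Nat.one_le_div_iff h8).2 hbig
    have hT2 : 8 * r * T ≤ M := by rw [hT]; exact Nat.mul_div_le M _
    have hT3 : M ≤ 16 * r * T := by
      have h1 : M < 8 * r * (T + 1) := by rw [hT]; exact Nat.lt_mul_div_succ M h8
      have h2 : 8 * r * (T + 1) ≤ 8 * r * (2 * T) := Nat.mul_le_mul_left _ (by omega)
      have h3 : 8 * r * (2 * T) = 16 * r * T := by ring
      omega
    have hTM : T ≤ M := by
      have : T ≤ 8 * r * T := Nat.le_mul_of_pos_left _ h8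
      omega
    have hT0 : (0 : ℝ) < T := by exact_mod_cast hT1
    -- detection
    have h1 : (T : ℝ) ^ 2 / 4 * W ≤ ∑ a : Fin h → α, ∑ c : Fin h → α, w a c * ‖∑ t ∈ range T, ee (((t : ℝ) / M) * Dx a c)‖ ^ 2 := by
      rw [hW, mul_sum]
      apply sum_le_sum
      intro a _
      rw [mul_sum]
      apply sum_le_sum
      intro c _
      split_ifs with hc
      · rw [mul_comm]
        exact mul_le_mul_of_nonneg_left (det_big M T r hM hT2 _ hc) (hw0' a c)
      · rw [mul_zero]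
        exact mul_nonneg (hw0' a c) (sq_nonneg _)
    have h2 : ((∑ a : Fin h → α, ∑ c : Fin h → α, w a c * ‖∑ t ∈ range T, ee (((t : ℝ) / M) * Dx a c)‖ ^ 2 : ℝ) : ℂ) =
        ((∑ t ∈ range T, ∑ t' ∈ range T, ‖∑ n, ((p n : ℝ) : ℂ) * ee ((((t : ℝ) - t') / M) * x n)‖ ^ (2 * h) : ℝ) : ℂ) := by
      have e1 : ∀ a c, ((w a c * ‖∑ t ∈ range T, ee (((t : ℝ) / M) * Dx a c)‖ ^ 2 : ℝ) : ℂ) =
          ∑ t ∈ range T, ∑ t' ∈ range T, ((w a c : ℝ) : ℂ) * ee ((((t : ℝ) - t') / M) * Dx a c) := by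
        intro a c
        rw [Complex.ofReal_mul, sq_exp T M (Dx a c)]
        simp only [mul_sum]
      simp only [Complex.ofReal_sum, e1]
      have e2 : ∀ t t' : ℕ, ((‖∑ n, ((p n : ℝ) : ℂ) * ee ((((t : ℝ) - t') / M) * x n)‖ ^ (2 * h) : ℝ) : ℂ) =
          ∑ a : Fin h → α, ∑ c : Fin h → α, ((w a c : ℝ) : ℂ) * ee ((((t : ℝ) - t') / M) * Dx a c) := by
        intro t t'
        rw [mom_id h p x, hw, hDx]
      simp only [e2]
      have e3 : ∀ a : Fin h → α, ∑ c : Fin h → α, ∑ t ∈ range T, ∑ t' ∈ range T, ((w a c : ℝ) : ℂ) * ee ((((t : ℝ) - t') / M) * Dx a c) =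
          ∑ t ∈ range T, ∑ t' ∈ range T, ∑ c : Fin h → α, ((w a c : ℝ) : ℂ) * ee ((((t : ℝ) - t') / M) * Dx a c) := by
        intro a
        rw [sum_comm]
        apply sum_congr rfl
        intro t _
        rw [sum_comm]
      simp only [e3]
      rw [sum_comm]
      apply sum_congr rfl
      intro t _
      rw [sum_comm]
    rw [Complex.ofReal_inj] at h2
    rw [h2] at h1
    have h3 : ∀ t t' : ℕ, ‖∑ n, ((p n : ℝ) : ℂ) * ee ((((t : ℝ) - t') / M) * x n)‖ ^ (2 * h) = U (Nat.dist t t') := by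
      intro t t'
      rw [hU]
      simp only
      congr 1
      rcases le_total t' t with hle | hle
      · have h4 : ((Nat.dist t t' : ℕ) : ℝ) = (t : ℝ) - t' := by
          rw [Nat.dist_comm, Nat.dist_eq_sub_of_le hle, Nat.cast_sub hle]
        rw [h4]
        congr 1
        apply sum_congr rfl
        intro n _
        congr 2
        ring
      · have h4 : ((Nat.dist t t' : ℕ) : ℝ) = (t' : ℝ) - t := by
          rw [Nat.dist_eq_sub_of_le hle, Nat.cast_sub hle]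
        rw [h4, ← Complex.norm_conj, map_sum]
        congr 1
        apply sum_congr rfl
        intro n _
        rw [map_mul, Complex.conj_ofReal, Pool.Agent.H373R2.T7.conj_ee]
        congr 2
        ring
    simp only [h3] at h1
    have h4 : ∑ t ∈ range T, ∑ t' ∈ range T, U (Nat.dist t t') ≤ T * (2 * ∑ s ∈ range M, U s) := by
      calc ∑ t ∈ range T, ∑ t' ∈ range T, U (Nat.dist t t') ≤ ∑ t ∈ range T, 2 * ∑ s ∈ range T, U s :=
            sum_le_sum fun t ht => dist_sum T t U hU0 ht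
        _ = T * (2 * ∑ s ∈ range T, U s) := by rw [sum_const, card_range, nsmul_eq_mul]
        _ ≤ _ := by
            apply mul_le_mul_of_nonneg_left _ hT0.le
            apply mul_le_mul_of_nonneg_left _ (by norm_num)
            exact sum_le_sum_of_subset_of_nonneg (range_mono hTM) (fun s _ _ => hU0 s)
    have h5 : (T : ℝ) * W ≤ 8 * ∑ s ∈ range M, U s := by
      have h6 := h1.trans h4
      have h7 : (T : ℝ) * ((T : ℝ) * W) ≤ T * (8 * ∑ s ∈ range M, U s) := by linarith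
      exact le_of_mul_le_mul_left h7 hT0
    have h6 : 0 ≤ W := by
      rw [hW]
      apply sum_nonneg
      intro a _
      apply sum_nonneg
      intro c _
      split_ifs
      · exact hw0' a c
      · exact le_rfl
    have h7 : (M : ℝ) ≤ 16 * r * T := by exact_mod_cast hT3
    calc (M : ℝ) * W ≤ (16 * r * T) * W := mul_le_mul_of_nonneg_right h7 h6
      _ = 16 * r * (T * W) := by ring
      _ ≤ 16 * r * (8 * ∑ s ∈ range M, U s) := mul_le_mul_of_nonneg_left h5 (by positivity)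
      _ = _ := by ring

end Pool.Agent.H92.Pd
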