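import Pool.Agent.H92.Pd.A4
import Pool.Agent.TH212.EH.A1

set_option autoImplicit false

/-! The transfer from uniform distributions on finite families to arbitrary distributions. -/

namespace Pool.Agent.H92.Pd
open Finset Filter Topology
open Pool.Agent.TH212.EH (En)

/-- sums over families with multiplicities -/
lemma sum_lift {κ : Type} [Fintype κ] [DecidableEq κ] (α : κ → Type) [∀ i, Fintype (α i)] (m : ∀ i, α i → ℕ) (f : (∀ i, α i) → ℝ) :
    ∑ q : ∀ i, (Σ n : α i, Fin (m i n)), f (fun i => (q i).1) = ∑ a : ∀ i, α i, (∏ i, (m i (a i) : ℝ)) * f a := by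
  classical
  let e : (Σ a : (∀ i, α i), ∀ i, Fin (m i (a i))) ≃ (∀ i, (Σ n : α i, Fin (m i n))) :=
    { toFun := fun s i => ⟨s.1 i, s.2 i⟩
      invFun := fun q => ⟨fun i => (q i).1, fun i => (q i).2⟩
      left_inv := fun _ => rfl
      right_inv := fun _ => rfl }
  rw [← Equiv.sum_comp e, Fintype.sum_sigma]
  apply sum_congr rfl
  intro a _
  have h1 : ∀ x : (∀ i, Fin (m i (a i))), f (fun i => (e ⟨a, x⟩ i).1) = f a := fun _ => rfl
  rw [sum_congr rfl fun x _ => h1 x, sum_const, card_univ, Fintype.card_pi, nsmul_eq_mul]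
  simp only [Fintype.card_fin]
  push_cast
  rfl

open Classical in
/-- the probability that two sums of `h` independent random integers are equal -/
noncomputable def EW (h : ℕ) {α : Type} [Fintype α] (p : α → ℝ) (v : α → ℤ) : ℝ :=
  ∑ a : Fin h → α, ∑ c : Fin h → α, if ∑ j, v (a j) = ∑ j, v (c j) then (∏ j, p (a j)) * ∏ j, p (c j) else 0

lemma EW_nonneg (h : ℕ) {α : Type} [Fintype α] (p : α → ℝ) (hp : ∀ i, 0 ≤ p i) (v : α → ℤ) : 0 ≤ EW h p v := by
  unfold EW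
  apply sum_nonneg
  intro a _
  apply sum_nonneg
  intro c _
  split_ifs
  · exact mul_nonneg (prod_nonneg fun _ _ => hp _) (prod_nonneg fun _ _ => hp _)
  · exact le_rfl

open Classical in
lemma En_eq (h : ℕ) {ι : Type} [Fintype ι] (v : ι → ℤ) :
    (En h v : ℝ) = ∑ a : Fin h → ι, ∑ c : Fin h → ι, if ∑ j, v (a j) = ∑ j, v (c j) then (1 : ℝ) else 0 := by
  unfold En
  rw [Nat.card_eq_fintype_card, Fintype.card_subtype, ← Fintype.sum_prod_type', sum_boole]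

lemma En_lift (h : ℕ) {α : Type} [Fintype α] (m : α → ℕ) (v : α → ℤ) (p : α → ℝ) (R : ℝ) (hm : ∀ i, (m i : ℝ) ≤ R * p i) :
    (En h (fun i : (Σ n : α, Fin (m n)) => v i.1) : ℝ) ≤ R ^ (2 * h) * EW h p v := by
  classical
  rw [En_eq]
  have h1 : ∀ a : Fin h → (Σ n : α, Fin (m n)), ∑ c : Fin h → (Σ n : α, Fin (m n)),
      (if ∑ j, v (a j).1 = ∑ j, v (c j).1 then (1 : ℝ) else 0) =
      ∑ c : Fin h → α, (∏ j, (m (c j) : ℝ)) * (if ∑ j, v (a j).1 = ∑ j, v (c j) then (1 : ℝ) else 0) := by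
    intro a
    exact sum_lift (fun _ : Fin h => α) (fun _ => m) (fun c => if ∑ j, v (a j).1 = ∑ j, v (c j) then (1 : ℝ) else 0)
  simp only [h1]
  have h2 := sum_lift (fun _ : Fin h => α) (fun _ => m)
    (fun a => ∑ c : Fin h → α, (∏ j, (m (c j) : ℝ)) * (if ∑ j, v (a j) = ∑ j, v (c j) then (1 : ℝ) else 0))
  rw [h2]
  unfold EW
  rw [mul_sum]
  apply sum_le_sum
  intro a _
  rw [mul_sum, mul_sum]
  apply sum_le_sum
  intro c _
  have h3 : ∀ d : Fin h → α, ∏ j, (m (d j) : ℝ) ≤ R ^ h * ∏ j, p (d j) := by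
    intro d
    calc ∏ j, (m (d j) : ℝ) ≤ ∏ j, (R * p (d j)) := prod_le_prod (fun _ _ => Nat.cast_nonneg _) (fun _ _ => hm _)
      _ = _ := by rw [prod_mul_distrib, prod_const, card_univ, Fintype.card_fin]
  split_ifs
  · rw [mul_one]
    calc (∏ j, (m (a j) : ℝ)) * ∏ j, (m (c j) : ℝ) ≤ (R ^ h * ∏ j, p (a j)) * (R ^ h * ∏ j, p (c j)) :=
          mul_le_mul (h3 a) (h3 c) (prod_nonneg fun _ _ => Nat.cast_nonneg _) ((prod_nonneg fun _ _ => Nat.cast_nonneg _).trans (h3 a))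
      _ = _ := by ring
  · simp

lemma card_lift {α : Type} [Fintype α] (m : α → ℕ) : (Fintype.card (Σ n : α, Fin (m n)) : ℝ) = ∑ n, (m n : ℝ) := by
  rw [Fintype.card_sigma]
  simp only [Fintype.card_fin]
  push_cast
  rfl

/-- the sizes of the discrete families -/
lemma size_lift {α : Type} [Fintype α] (p : α → ℝ) (hp : ∀ i, 0 ≤ p i) (hp1 : ∑ i, p i = 1) (R : ℕ) (hR : 2 * Fintype.card α ≤ R) :
    (R : ℝ) ≤ 2 * (Fintype.card (Σ n : α, Fin ⌊p n * R⌋₊) : ℝ) ∧ (Fintype.card (Σ n : α, Fin ⌊p n * R⌋₊) : ℝ) ≤ R := by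
  rw [card_lift]
  constructor
  · have h1 : ∑ n, (p n * R - 1) ≤ ∑ n, (⌊p n * R⌋₊ : ℝ) := sum_le_sum fun n _ => (Nat.sub_one_lt_floor _).le
    rw [sum_sub_distrib, ← sum_mul, hp1, one_mul, sum_const, card_univ, nsmul_eq_mul, mul_one] at h1
    have h2 : (2 : ℝ) * Fintype.card α ≤ R := by exact_mod_cast hR
    linarith
  · calc ∑ n, (⌊p n * R⌋₊ : ℝ) ≤ ∑ n, p n * R := sum_le_sum fun n _ => Nat.floor_le (mul_nonneg (hp n) (Nat.cast_nonneg _))
      _ = R := by rw [← sum_mul, hp1, one_mul]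

lemma energy_lift (h : ℕ) {α : Type} [Fintype α] (p : α → ℝ) (hp : ∀ i, 0 ≤ p i) (hp1 : ∑ i, p i = 1) (v : α → ℤ) (R : ℕ)
    (hR : 2 * Fintype.card α ≤ R) :
    (En h (fun i : (Σ n : α, Fin ⌊p n * R⌋₊) => v i.1) : ℝ) ≤
      EW h p v * 2 ^ (2 * h) * (Fintype.card (Σ n : α, Fin ⌊p n * R⌋₊) : ℝ) ^ (2 * h) := by
  obtain ⟨h1, _⟩ := size_lift p hp hp1 R hR
  have h2 := En_lift h (fun n => ⌊p n * R⌋₊) v p R (fun i =>
    (Nat.floor_le (mul_nonneg (hp i) (Nat.cast_nonneg _))).trans (le_of_eq (mul_comm _ _)))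
  refine h2.trans ?_
  rw [mul_assoc, ← mul_pow, mul_comm]
  exact mul_le_mul_of_nonneg_left (pow_le_pow_left₀ (Nat.cast_nonneg _) h1 _) (EW_nonneg h p hp v)

/-- **Transfer**, one variable: from uniform distributions on finite families to arbitrary distributions. -/
theorem transfer1 (h : ℕ) {α : Type} [Fintype α] (p : α → ℝ) (hp : ∀ i, 0 ≤ p i) (hp1 : ∑ i, p i = 1) (v : α → ℤ)
    (Y : α → ℝ) (ε : ℝ) (hε : 0 ≤ ε)
    (H : ∀ (ι : Type) [Fintype ι] (g : ι → α), (∀ i, p (g i) ≠ 0) →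
      (En h (fun i => v (g i)) : ℝ) ≤ EW h p v * 2 ^ (2 * h) * (Fintype.card ι : ℝ) ^ (2 * h) →
      ∑ i, Y (g i) ≤ ε * Fintype.card ι) : ∑ i, p i * Y i ≤ ε := by
  have hlim : Tendsto (fun R : ℕ => ∑ i, ((⌊p i * R⌋₊ : ℝ) / R) * Y i) atTop (𝓝 (∑ i, p i * Y i)) := by
    apply tendsto_finsetSum
    intro i _
    apply Tendsto.mul_const
    exact (tendsto_nat_floor_mul_div_atTop (hp i)).comp tendsto_natCast_atTop_atTop
  apply le_of_tendsto hlim
  filter_upwards [eventually_ge_atTop (2 * Fintype.card α + 1)] with R hR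
  have hR0 : (0 : ℝ) < R := by exact_mod_cast (by omega : 0 < R)
  obtain ⟨_, h2⟩ := size_lift p hp hp1 R (by omega)
  have h3 := H (Σ n : α, Fin ⌊p n * R⌋₊) (fun i => i.1) (by
    rintro ⟨n, j⟩ hn
    simp only at hn
    have hj := j.2
    have hz : ⌊p n * (R : ℝ)⌋₊ = 0 := by rw [hn, zero_mul, Nat.floor_zero]
    omega) (energy_lift h p hp hp1 v R (by omega))
  have h4 : ∑ i : (Σ n : α, Fin ⌊p n * R⌋₊), Y i.1 = ∑ n, (⌊p n * R⌋₊ : ℝ) * Y n := by
    rw [Fintype.sum_sigma]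
    apply sum_congr rfl
    intro n _
    simp only
    rw [sum_const, card_univ, Fintype.card_fin, nsmul_eq_mul]
  rw [h4] at h3
  have h5 : ∑ i, ((⌊p i * R⌋₊ : ℝ) / R) * Y i = (∑ i, (⌊p i * R⌋₊ : ℝ) * Y i) / R := by
    rw [sum_div]
    apply sum_congr rfl
    intro i _
    ring
  rw [h5, div_le_iff₀ hR0]
  exact h3.trans (mul_le_mul_of_nonneg_left h2 hε)

open Classical in
/-- **Transfer**, several variables. -/
theorem transfer {s : ℕ} (h : ℕ) (α : Fin s → Type) [∀ i, Fintype (α i)] (p : ∀ i, α i → ℝ) (hp : ∀ i j, 0 ≤ p i j)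
    (hp1 : ∀ i, ∑ j, p i j = 1) (v : ∀ i, α i → ℤ) (Bad : (∀ i, α i) → Prop) (ε : ℝ) (hε : 0 ≤ ε)
    (H : ∀ (ι : Fin s → Type) [∀ i, Fintype (ι i)] (g : ∀ i, ι i → α i), (∀ i j, p i (g i j) ≠ 0) →
      (∀ i, (En h (fun j => v i (g i j)) : ℝ) ≤ EW h (p i) (v i) * 2 ^ (2 * h) * (Fintype.card (ι i) : ℝ) ^ (2 * h)) →
      ((univ.filter (fun q : ∀ i, ι i => Bad (fun i => g i (q i)))).card : ℝ) ≤ ε * ∏ i, (Fintype.card (ι i) : ℝ)) :
    ∑ a : ∀ i, α i, (if Bad a then ∏ i, p i (a i) else 0) ≤ ε := by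
  have hlim : Tendsto (fun R : ℕ => ∑ a : ∀ i, α i, (if Bad a then ∏ i, ((⌊p i (a i) * R⌋₊ : ℝ) / R) else 0)) atTop
      (𝓝 (∑ a : ∀ i, α i, (if Bad a then ∏ i, p i (a i) else 0))) := by
    apply tendsto_finsetSum
    intro a _
    split_ifs
    · apply tendsto_finsetProd
      intro i _
      exact (tendsto_nat_floor_mul_div_atTop (hp i (a i))).comp tendsto_natCast_atTop_atTop
    · exact tendsto_const_nhds
  apply le_of_tendsto hlim
  filter_upwards [eventually_ge_atTop (2 * ∑ i, Fintype.card (α i) + 1)] with R hR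
  have hR0 : (0 : ℝ) < R := by exact_mod_cast (by omega : 0 < R)
  have hRi : ∀ i, 2 * Fintype.card (α i) ≤ R := by
    intro i
    have : Fintype.card (α i) ≤ ∑ i, Fintype.card (α i) := single_le_sum (f := fun i => Fintype.card (α i)) (fun _ _ => Nat.zero_le _) (mem_univ i)
    omega
  have h2 := fun i => (size_lift (p i) (hp i) (hp1 i) R (hRi i)).2
  have h3 := H (fun i => (Σ n : α i, Fin ⌊p i n * R⌋₊)) (fun i j => j.1) (by
    rintro i ⟨n, j⟩ hn
    simp only at hn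
    have hj := j.2
    have hz : ⌊p i n * (R : ℝ)⌋₊ = 0 := by rw [hn, zero_mul, Nat.floor_zero]
    omega) (fun i => energy_lift h (p i) (hp i) (hp1 i) (v i) R (hRi i))
  have h4 : ((univ.filter (fun q : ∀ i, (Σ n : α i, Fin ⌊p i n * R⌋₊) => Bad (fun i => (q i).1))).card : ℝ) =
      ∑ a : ∀ i, α i, (∏ i, (⌊p i (a i) * R⌋₊ : ℝ)) * (if Bad a then 1 else 0) := by
    rw [← sum_lift α (fun i n => ⌊p i n * R⌋₊) (fun a => if Bad a then (1 : ℝ) else 0), sum_boole]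
  rw [h4] at h3
  have h5 : ∑ a : ∀ i, α i, (if Bad a then ∏ i, ((⌊p i (a i) * R⌋₊ : ℝ) / R) else 0) =
      (∑ a : ∀ i, α i, (∏ i, (⌊p i (a i) * R⌋₊ : ℝ)) * (if Bad a then 1 else 0)) / R ^ s := by
    rw [sum_div]
    apply sum_congr rfl
    intro a _
    split_ifs
    · rw [prod_div_distrib, prod_const, card_univ, Fintype.card_fin, mul_one]
    · rw [mul_zero, zero_div]
  rw [h5, div_le_iff₀ (by positivity)]
  refine h3.trans (mul_le_mul_of_nonneg_left ?_ hε)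
  calc ∏ i, (Fintype.card (Σ n : α i, Fin ⌊p i n * R⌋₊) : ℝ) ≤ ∏ _i : Fin s, (R : ℝ) :=
        prod_le_prod (fun _ _ => Nat.cast_nonneg _) (fun i _ => h2 i)
    _ = _ := by rw [prod_const, card_univ, Fintype.card_fin]

end Pool.Agent.H92.Pd
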