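import Pool.Agent.H92.Pd.A5
import Pool.Agent.TH212.EH.A2

set_option autoImplicit false

/-! The additive energy of integers close to the values of a polynomial at integers with independent random digits. -/

namespace Pool.Agent.H92.Pd
open Finset Polynomial
open Pool.Agent.H807R2.Dav
open Pool.Agent.TH872.Sq

/-- **Integers close to the values of a real polynomial at integers with independent random digits have nearly minimal
energy.** -/
theorem energy_digits (b e : ℕ) (hb : 2 ≤ b) (he : 1 ≤ e) (η : ℝ) (hη : 0 < η) : ∃ h₀ : ℕ, ∃ C : ℝ, 1 ≤ h₀ ∧ 0 < C ∧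
    ∀ (h r k N : ℕ) (Φ : ℝ), h₀ ≤ h → 1 ≤ r → 1 ≤ N → 1 ≤ Φ → (N : ℝ) ≤ Φ * (b : ℝ) ^ ((e + 1) * k) → ∀ (w : ℕ → ℕ → ℝ), Dig b η w →
    ∀ (F : ℝ[X]), F.natDegree ≤ e + 1 → F.coeff (e + 1) ≠ 0 → ∀ v : ℕ → ℤ,
    (∀ n < b ^ k, P b w 0 k n ≠ 0 → |F.eval (n : ℝ) - v n| ≤ r) →
    EW h (fun n : Fin (b ^ k) => P b w 0 k n) (fun n : Fin (b ^ k) => v n) * N ≤ 256 * h * r * (C * Ga Φ (F.coeff (e + 1))) := by
  classical
  obtain ⟨h₀, C, hh₀, hC, hm⟩ := moment b e hb he η hη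
  refine ⟨h₀, C, hh₀, hC, fun h r k N Φ hh hr hN hΦ hNΦ w hw F hF hα v hv => ?_⟩
  have h1 := hm k N Φ hN hΦ hNΦ w hw 0 F hF hα
  have hp0 : ∀ n : Fin (b ^ k), 0 ≤ P b w 0 k n := fun n => P_nonneg hw _ _ _
  have hp1 : ∑ n : Fin (b ^ k), P b w 0 k n = 1 := by
    rw [← Finset.sum_range (fun n => P b w 0 k n)]
    exact P_sum (by omega) hw 0 k
  have h2 := near_le h (2 * h * r) (Nat.mul_pos (by omega) hr) (fun n : Fin (b ^ k) => P b w 0 k n)
    (fun n : Fin (b ^ k) => F.eval (n : ℝ)) hp0 hp1 N hN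
  have h3 : ∑ t ∈ range N, ‖∑ n : Fin (b ^ k), ((P b w 0 k n : ℝ) : ℂ) * ee ((t : ℝ) * (F.eval (n : ℝ) / N))‖ ^ (2 * h) ≤
      ∑ t ∈ range N, ‖∑ n ∈ range (b ^ k), ((P b w 0 k n : ℝ) : ℂ) * ee ((t : ℝ) * (F.eval (n : ℝ) / N))‖ ^ (2 * h₀) := by
    apply sum_le_sum
    intro t _
    rw [← Finset.sum_range (fun n => ((P b w 0 k n : ℝ) : ℂ) * ee ((t : ℝ) * (F.eval (n : ℝ) / N)))]
    apply pow_le_pow_of_le_one (norm_nonneg _) _ (by omega)
    exact norm_avg (by omega) hw 0 k _ 1 (fun n => by rw [norm_ee])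
  have h4 : EW h (fun n : Fin (b ^ k) => P b w 0 k n) (fun n : Fin (b ^ k) => v n) ≤
      ∑ a : Fin h → Fin (b ^ k), ∑ c : Fin h → Fin (b ^ k), (if |∑ j, F.eval ((a j : ℕ) : ℝ) - ∑ j, F.eval ((c j : ℕ) : ℝ)| ≤
        ((2 * h * r : ℕ) : ℝ) then (∏ j, P b w 0 k (a j)) * ∏ j, P b w 0 k (c j) else 0) := by
    unfold EW
    apply sum_le_sum
    intro a _
    apply sum_le_sum
    intro c _
    have hnn : 0 ≤ (∏ j, P b w 0 k (a j)) * ∏ j, P b w 0 k (c j) :=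
      mul_nonneg (prod_nonneg fun j _ => hp0 _) (prod_nonneg fun j _ => hp0 _)
    split_ifs with h5 h6
    · exact le_rfl
    · by_cases hz : (∏ j, P b w 0 k (a j)) * ∏ j, P b w 0 k (c j) = 0
      · exact hz.le
      exfalso
      apply h6
      have hza : ∀ j, P b w 0 k (a j) ≠ 0 := fun j h0 => hz (by rw [prod_eq_zero (mem_univ j) h0, zero_mul])
      have hzc : ∀ j, P b w 0 k (c j) ≠ 0 := fun j h0 => hz (by
        rw [show ∏ j, P b w 0 k (c j) = 0 from prod_eq_zero (mem_univ j) h0, mul_zero])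
      have h7 : ∑ j, F.eval ((a j : ℕ) : ℝ) - ∑ j, F.eval ((c j : ℕ) : ℝ) =
          ∑ j, ((F.eval ((a j : ℕ) : ℝ) - v (a j)) - (F.eval ((c j : ℕ) : ℝ) - v (c j))) := by
        have h8 : (∑ j, (v (a j) : ℝ)) = ∑ j, (v (c j) : ℝ) := by exact_mod_cast h5
        simp only [sum_sub_distrib]
        rw [h8]
        ring
      rw [h7]
      refine (abs_sum_le_sum_abs _ _).trans ?_
      calc ∑ j : Fin h, |(F.eval ((a j : ℕ) : ℝ) - v (a j)) - (F.eval ((c j : ℕ) : ℝ) - v (c j))| ≤ ∑ _j : Fin h, (2 * (r : ℝ)) := by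
            apply sum_le_sum
            intro j _
            refine (abs_sub _ _).trans ?_
            have q1 := hv (a j) (a j).2 (hza j)
            have q2 := hv (c j) (c j).2 (hzc j)
            linarith
        _ = ((2 * h * r : ℕ) : ℝ) := by rw [sum_const, card_univ, Fintype.card_fin, nsmul_eq_mul]; push_cast; ring
    · exact hnn
    · exact le_rfl
  have hN0 : (0 : ℝ) ≤ N := Nat.cast_nonneg _
  calc EW h (fun n : Fin (b ^ k) => P b w 0 k n) (fun n : Fin (b ^ k) => v n) * N ≤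
        (∑ a : Fin h → Fin (b ^ k), ∑ c : Fin h → Fin (b ^ k), (if |∑ j, F.eval ((a j : ℕ) : ℝ) - ∑ j, F.eval ((c j : ℕ) : ℝ)| ≤
        ((2 * h * r : ℕ) : ℝ) then (∏ j, P b w 0 k (a j)) * ∏ j, P b w 0 k (c j) else 0)) * N := mul_le_mul_of_nonneg_right h4 hN0
    _ ≤ 128 * ((2 * h * r : ℕ) : ℝ) * (C * Ga Φ (F.coeff (e + 1))) := by
        rw [mul_comm]
        exact h2.trans (mul_le_mul_of_nonneg_left (h3.trans h1) (by positivity))
    _ = _ := by push_cast; ring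

/-- the hypothesis of the theorems on families of small energy -/
theorem digits_hyp (b e A V : ℕ) (hb : 2 ≤ b) (he : 1 ≤ e) (η : ℝ) (hη : 0 < η) : ∃ h₀ : ℕ, 1 ≤ h₀ ∧ ∀ h : ℕ, h₀ ≤ h → ∃ N₀ : ℕ,
    ∀ N : ℕ, N₀ ≤ N → ∀ k : ℕ, (N : ℝ) ≤ Real.log N ^ A * (b : ℝ) ^ ((e + 1) * k) → ∀ (w : ℕ → ℕ → ℝ), Dig b η w →
    ∀ (F : ℝ[X]), F.natDegree ≤ e + 1 → 1 / Real.log N ^ A ≤ |F.coeff (e + 1)| → |F.coeff (e + 1)| ≤ Real.log N ^ A →
    ∀ v : ℕ → ℤ, (∀ n < b ^ k, P b w 0 k n ≠ 0 → |F.eval (n : ℝ) - v n| ≤ Real.log N ^ V + 2) →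
    EW h (fun n : Fin (b ^ k) => P b w 0 k n) (fun n : Fin (b ^ k) => v n) * 2 ^ (2 * h) * N ≤ Real.log N ^ (3 * A + V + 1) := by
  obtain ⟨h₀, C, hh₀, hC, hE⟩ := energy_digits b e hb he η hη
  refine ⟨h₀, hh₀, fun h hh => ?_⟩
  obtain ⟨n1, h1⟩ := Pool.Agent.TH212.EH.large (4096 * h * C * 2 ^ (2 * h)) 3
  refine ⟨n1, fun N hN k hNk w hw F hF hα1 hα2 v hv => ?_⟩
  obtain ⟨hN3, hL1, hL2⟩ := h1 N hN
  obtain ⟨L, hL⟩ : ∃ L, L = Real.log (N : ℝ) := ⟨_, rfl⟩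
  rw [← hL] at hL1 hL2 hNk hα1 hα2 hv ⊢
  have hL0 : 0 < L := by linarith
  have hLA : 1 ≤ L ^ A := one_le_pow₀ hL2
  have hLV : 1 ≤ L ^ V := one_le_pow₀ hL2
  have hα0 : 0 < |F.coeff (e + 1)| := lt_of_lt_of_le (by positivity) hα1
  obtain ⟨r, hr⟩ : ∃ r : ℕ, r = ⌈L ^ V + 2⌉₊ := ⟨_, rfl⟩
  have hr1 : L ^ V + 2 ≤ r := by rw [hr]; exact Nat.le_ceil _
  have hr2 : (r : ℝ) ≤ 4 * L ^ V := by
    have : (r : ℝ) < L ^ V + 2 + 1 := by rw [hr]; exact Nat.ceil_lt_add_one (by positivity)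
    linarith
  have hr3 : 1 ≤ r := by
    have : (1 : ℝ) ≤ r := by linarith
    exact_mod_cast this
  have h2 := hE h r k N (L ^ A) hh hr3 (by omega) hLA hNk w hw F hF (abs_pos.1 hα0) v (fun n hn hne => (hv n hn hne).trans hr1)
  have h3 : Ga (L ^ A) (F.coeff (e + 1)) ≤ 4 * L ^ (3 * A) := by
    unfold Ga
    have q1 : |F.coeff (e + 1)| + 1 ≤ 2 * L ^ A := by linarith
    have q2 : 1 / |F.coeff (e + 1)| ≤ L ^ A := by
      rw [div_le_iff₀ hα0]
      rw [div_le_iff₀ (by positivity)] at hα1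
      linarith
    have q3 : 1 / |F.coeff (e + 1)| + 1 ≤ 2 * L ^ A := by linarith
    calc L ^ A * ((|F.coeff (e + 1)| + 1) * (1 / |F.coeff (e + 1)| + 1)) ≤ L ^ A * ((2 * L ^ A) * (2 * L ^ A)) := by
          apply mul_le_mul_of_nonneg_left _ (by positivity)
          exact mul_le_mul q1 q3 (by positivity) (by positivity)
      _ = _ := by rw [show 3 * A = A + A + A by ring, pow_add, pow_add]; ring
  calc EW h (fun n : Fin (b ^ k) => P b w 0 k n) (fun n : Fin (b ^ k) => v n) * 2 ^ (2 * h) * N =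
      2 ^ (2 * h) * (EW h (fun n : Fin (b ^ k) => P b w 0 k n) (fun n : Fin (b ^ k) => v n) * N) := by ring
    _ ≤ 2 ^ (2 * h) * (256 * h * (4 * L ^ V) * (C * (4 * L ^ (3 * A)))) := by
        apply mul_le_mul_of_nonneg_left _ (by positivity)
        refine h2.trans ?_
        apply mul_le_mul _ (mul_le_mul_of_nonneg_left h3 hC.le) _ (by positivity)
        · exact mul_le_mul_of_nonneg_left hr2 (by positivity)
        · apply mul_nonneg hC.le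
          unfold Ga
          positivity
    _ = (4096 * h * C * 2 ^ (2 * h)) * L ^ (3 * A + V) := by rw [pow_add L (3 * A) V]; ring
    _ ≤ L * L ^ (3 * A + V) := mul_le_mul_of_nonneg_right hL1 (by positivity)
    _ = _ := by rw [pow_succ]; ring

end Pool.Agent.H92.Pd
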