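import Pool.Agent.H92.Pd.A6
import Pool.Agent.TH212.EH.A6

set_option autoImplicit false

/-! Level of distribution for the integers close to the values of a polynomial at integers with independent random digits. -/

namespace Pool.Agent.H92.Pd
open Finset Polynomial
open Pool.Agent.H807R2.Dav
open Pool.Agent.TH872.Sq
open Pool.Agent.TH212.EH (En level W WW few level_anti)

/-- the level of distribution for all `Q`, for all heights, and for the heights `y q` -/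
def Lv (B U K N : ℕ) (lam : ℕ → ℝ) (y : ℕ → ℕ) (a : ℕ) : Prop :=
  (∀ Q : ℕ, (Q : ℝ) ≤ level K N → ∀ x : ℕ, x ≤ B * N → |W lam Q x a| ≤ N / Real.log N ^ U) ∧
  ∀ Q : ℕ, (Q : ℝ) ≤ level K N → |WW lam y Q a| ≤ N / Real.log N ^ U

open Classical in
/-- few exceptions, for arbitrary distributions of small energy -/
theorem few_w (h B C T U : ℕ) : ∃ K N0 : ℕ, ∀ N : ℕ, N0 ≤ N → ∀ (α : Type) [Fintype α] (p : α → ℝ), (∀ i, 0 ≤ p i) →
    ∑ i, p i = 1 → ∀ v : α → ℤ, (∀ i, p i ≠ 0 → |v i| ≤ B * N) → EW h p v * 2 ^ (2 * h) * N ≤ Real.log N ^ C →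
    ∀ lam : ℕ → ℝ, (∀ q, |lam q| ≤ Real.log N ^ T * (q.divisors.card : ℝ) ^ T) → ∀ y : ℕ → ℕ, (∀ q, y q ≤ B * N) →
    ∑ i, p i * (if 0 < v i ∧ ¬ Lv B U K N lam y (v i).toNat then 1 else 0) ≤ 2 / Real.log N ^ U := by
  obtain ⟨K, n0, h0⟩ := few h B C T U
  obtain ⟨n1, h1⟩ := Pool.Agent.TH212.EH.large 3 3
  refine ⟨K, n0 + n1, fun N hN α _ p hp hp1 v hv hE lam hlam y hy => ?_⟩
  obtain ⟨hN3, _, hL1⟩ := h1 N (by omega)
  obtain ⟨L, hL⟩ : ∃ L, L = Real.log (N : ℝ) := ⟨_, rfl⟩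
  have hL0 : 0 < L := by rw [hL]; linarith
  rw [← hL] at hE ⊢
  apply transfer1 h p hp hp1 v (fun i => if 0 < v i ∧ ¬ Lv B U K N lam y (v i).toNat then 1 else 0) (2 / L ^ U) (by positivity)
  intro ι _ g hg hEn
  have h2 := h0 N (by omega) ι (fun i => v (g i)) (fun i => hv _ (hg i)) (by
    rw [← hL]
    calc (En h (fun i => v (g i)) : ℝ) * N ≤ (EW h p v * 2 ^ (2 * h) * (Fintype.card ι : ℝ) ^ (2 * h)) * N :=
          mul_le_mul_of_nonneg_right hEn (Nat.cast_nonneg _)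
      _ = (EW h p v * 2 ^ (2 * h) * N) * (Fintype.card ι : ℝ) ^ (2 * h) := by ring
      _ ≤ _ := mul_le_mul_of_nonneg_right hE (by positivity)) lam hlam
  obtain ⟨h3, h4⟩ := h2
  have h5 := h4 y hy
  rw [← hL] at h3 h5
  rw [sum_boole]
  have h6 : (univ.filter (fun i : ι => 0 < v (g i) ∧ ¬ Lv B U K N lam y (v (g i)).toNat)) ⊆
      (univ.filter (fun i : ι => 0 < v (g i) ∧ ∃ Q : ℕ, (Q : ℝ) ≤ level K N ∧ ∃ y : ℕ, y ≤ B * N ∧
        (N : ℝ) / L ^ U < |W lam Q y (v (g i)).toNat|)) ∪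
      (univ.filter (fun i : ι => 0 < v (g i) ∧ ∃ Q : ℕ, (Q : ℝ) ≤ level K N ∧
        (N : ℝ) / L ^ U < |WW lam y Q (v (g i)).toNat|)) := by
    intro i hi
    rw [mem_filter] at hi
    obtain ⟨_, hi1, hi2⟩ := hi
    rw [mem_union, mem_filter, mem_filter]
    unfold Lv at hi2
    rw [not_and_or] at hi2
    rcases hi2 with hi2 | hi2
    · left
      push Not at hi2
      obtain ⟨Q, hQ, x, hx, hbig⟩ := hi2
      rw [← hL] at hbig
      exact ⟨mem_univ _, hi1, Q, hQ, x, hx, hbig⟩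
    · right
      push Not at hi2
      obtain ⟨Q, hQ, hbig⟩ := hi2
      rw [← hL] at hbig
      exact ⟨mem_univ _, hi1, Q, hQ, hbig⟩
  have h7 : ((univ.filter (fun i : ι => 0 < v (g i) ∧ ¬ Lv B U K N lam y (v (g i)).toNat)).card : ℝ) ≤
      Fintype.card ι / L ^ U + Fintype.card ι / L ^ U := by
    refine le_trans ?_ (add_le_add h3 h5)
    have := (card_le_card h6).trans (card_union_le _ _)
    exact_mod_cast this
  refine h7.trans (le_of_eq ?_)
  ring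

lemma log_pow_small (V : ℕ) : ∃ N₀ : ℕ, ∀ N : ℕ, N₀ ≤ N → Real.log N ^ V + 3 ≤ N := by
  have h1 := (Real.isLittleO_pow_log_id_atTop (n := V)).bound (show (0 : ℝ) < 1 / 2 by norm_num)
  obtain ⟨x0, hx0⟩ := Filter.eventually_atTop.1 h1
  obtain ⟨n0, hn0⟩ := exists_nat_ge x0
  refine ⟨n0 + 6, fun N hN => ?_⟩
  have h2 := hx0 N (hn0.trans (by exact_mod_cast (by omega : n0 ≤ N)))
  have h6 : (6 : ℝ) ≤ N := by exact_mod_cast (by omega : 6 ≤ N)
  simp only [id] at h2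
  rw [Real.norm_of_nonneg (pow_nonneg (Real.log_natCast_nonneg N) _), Real.norm_of_nonneg (Nat.cast_nonneg _)] at h2
  linarith

open Classical in
/-- the level of distribution for almost all integers close to the values of a polynomial at integers with random digits -/
theorem levels (b e A B T U V : ℕ) (hb : 2 ≤ b) (he : 1 ≤ e) (η : ℝ) (hη : 0 < η) : ∃ K N₀ : ℕ,
    ∀ N : ℕ, N₀ ≤ N → ∀ k : ℕ, (N : ℝ) ≤ Real.log N ^ A * (b : ℝ) ^ ((e + 1) * k) → ∀ (w : ℕ → ℕ → ℝ), Dig b η w →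
    ∀ (F : ℝ[X]), F.natDegree ≤ e + 1 → 1 / Real.log N ^ A ≤ |F.coeff (e + 1)| → |F.coeff (e + 1)| ≤ Real.log N ^ A →
    (∀ n < b ^ k, P b w 0 k n ≠ 0 → |F.eval (n : ℝ)| ≤ B * N) →
    ∀ R : ℕ, (R : ℝ) ≤ Real.log N ^ T → ∀ lam : Fin R → ℕ → ℝ, (∀ l q, |lam l q| ≤ Real.log N ^ T * (q.divisors.card : ℝ) ^ T) →
    ∀ y : Fin R → ℕ → ℕ, (∀ l q, y l q ≤ B * N) →
    ∑ n ∈ range (b ^ k), (if ∀ a : ℕ, 0 < a → |(a : ℝ) - F.eval (n : ℝ)| ≤ Real.log N ^ V → ∀ l, Lv B U K N (lam l) (y l) a then 0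
      else P b w 0 k n) ≤ 1 / Real.log N ^ U := by
  obtain ⟨h, _, h0⟩ := digits_hyp b e A V hb he η hη
  obtain ⟨n1, h1⟩ := h0 h le_rfl
  obtain ⟨K, n2, h2⟩ := few_w h (B + 1) (3 * A + V + 1) T (U + T + 1)
  obtain ⟨n3, h3⟩ := log_pow_small V
  obtain ⟨n4, h4⟩ := Pool.Agent.TH212.EH.large 4 3
  refine ⟨K, n1 + n2 + n3 + n4, fun N hN k hNk w hw F hF hα1 hα2 hFB R hR lam hlam y hy => ?_⟩
  obtain ⟨hN3, hL4, _⟩ := h4 N (by omega)
  have hVN := h3 N (by omega)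
  have hN0 : (0 : ℝ) < N := by exact_mod_cast (by omega : 0 < N)
  obtain ⟨L, hL⟩ : ∃ L, L = Real.log (N : ℝ) := ⟨_, rfl⟩
  have hL0 : 0 < L := by rw [hL]; linarith
  have hL1 : 1 ≤ L := by rw [hL]; linarith
  have hmono : ∀ l a, Lv (B + 1) (U + T + 1) K N (lam l) (y l) a → Lv B U K N (lam l) (y l) a := by
    intro l a hla
    have q1 : (N : ℝ) / Real.log N ^ (U + T + 1) ≤ N / Real.log N ^ U := by
      rw [← hL]
      exact div_le_div_of_nonneg_left (Nat.cast_nonneg _) (by positivity) (pow_le_pow_right₀ hL1 (by omega))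
    exact ⟨fun Q hQ x hx => (hla.1 Q hQ x (hx.trans (Nat.mul_le_mul_right _ (by omega)))).trans q1, fun Q hQ => (hla.2 Q hQ).trans q1⟩
  -- a bad integer near the value
  have hsel : ∀ (l : Fin R) (n : ℕ), ∃ v : ℤ, |F.eval (n : ℝ) - v| ≤ L ^ V + 1 ∧
      ((∃ a : ℕ, 0 < a ∧ |(a : ℝ) - F.eval (n : ℝ)| ≤ L ^ V ∧ ¬ Lv B U K N (lam l) (y l) a) →
        0 < v ∧ ¬ Lv (B + 1) (U + T + 1) K N (lam l) (y l) v.toNat) := by
    intro l n
    by_cases hbad : ∃ a : ℕ, 0 < a ∧ |(a : ℝ) - F.eval (n : ℝ)| ≤ L ^ V ∧ ¬ Lv B U K N (lam l) (y l) a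
    · obtain ⟨a, ha0, ha1, ha2⟩ := hbad
      refine ⟨a, ?_, fun _ => ⟨by exact_mod_cast ha0, ?_⟩⟩
      · rw [abs_sub_comm]
        push_cast
        linarith
      · rw [Int.toNat_natCast]
        exact fun h' => ha2 (hmono l a h')
    · refine ⟨⌊F.eval (n : ℝ)⌋, ?_, fun h' => absurd h' hbad⟩
      have q1 := Int.floor_le (F.eval (n : ℝ))
      have q2 := Int.lt_floor_add_one (F.eval (n : ℝ))
      have q3 : 0 ≤ L ^ V := by positivity
      rw [abs_le]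
      constructor <;> linarith
  choose v hv1 hv2 using hsel
  have hp0 : ∀ n : Fin (b ^ k), 0 ≤ P b w 0 k n := fun n => P_nonneg hw _ _ _
  have hp1 : ∑ n : Fin (b ^ k), P b w 0 k n = 1 := by
    rw [← Finset.sum_range (fun n => P b w 0 k n)]
    exact P_sum (by omega) hw 0 k
  have hone : ∀ l : Fin R, ∑ n ∈ range (b ^ k),
      P b w 0 k n * (if 0 < v l n ∧ ¬ Lv (B + 1) (U + T + 1) K N (lam l) (y l) (v l n).toNat then 1 else 0) ≤ 2 / L ^ (U + T + 1) := by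
    intro l
    have hE := h1 N (by omega) k hNk w hw F hF hα1 hα2 (v l) (fun n _ _ => (hv1 l n).trans (by rw [← hL]; linarith))
    have h5 := h2 N (by omega) (Fin (b ^ k)) (fun n => P b w 0 k n) hp0 hp1 (fun n => v l n) (by
      intro n hn
      have q0 := hFB n n.2 hn
      have q1 := hv1 l n
      have q3 : |((v l n : ℤ) : ℝ)| ≤ (((B + 1 : ℕ) * N : ℤ) : ℝ) := by
        have q4 : ((v l n : ℤ) : ℝ) = F.eval ((n : ℕ) : ℝ) - (F.eval ((n : ℕ) : ℝ) - (v l n : ℝ)) := by ring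
        rw [q4]
        refine (abs_sub _ _).trans ?_
        rw [← hL] at hVN
        push_cast
        linarith
      exact_mod_cast q3) hE (lam l) (hlam l) (y l) (fun q => (hy l q).trans (Nat.mul_le_mul_right _ (by omega)))
    rw [← hL] at h5
    rw [Finset.sum_range (fun n => P b w 0 k n * (if 0 < v l n ∧ ¬ Lv (B + 1) (U + T + 1) K N (lam l) (y l) (v l n).toNat then 1 else 0))]
    exact h5
  have hpt : ∀ n ∈ range (b ^ k), (if ∀ a : ℕ, 0 < a → |(a : ℝ) - F.eval (n : ℝ)| ≤ Real.log N ^ V → ∀ l, Lv B U K N (lam l) (y l) a then 0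
      else P b w 0 k n) ≤ ∑ l : Fin R,
        P b w 0 k n * (if 0 < v l n ∧ ¬ Lv (B + 1) (U + T + 1) K N (lam l) (y l) (v l n).toNat then 1 else 0) := by
    intro n _
    have hP := P_nonneg hw 0 k n
    have hnn : ∀ l : Fin R, 0 ≤ P b w 0 k n * (if 0 < v l n ∧
        ¬ Lv (B + 1) (U + T + 1) K N (lam l) (y l) (v l n).toNat then (1 : ℝ) else 0) := by
      intro l
      apply mul_nonneg hP
      split_ifs <;> norm_num
    split_ifs with hgood
    · exact sum_nonneg fun l _ => hnn l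
    · push Not at hgood
      obtain ⟨a, ha0, ha1, l, hal⟩ := hgood
      rw [← hL] at ha1
      have hsl := hv2 l n ⟨a, ha0, ha1, hal⟩
      calc P b w 0 k n = P b w 0 k n * (if 0 < v l n ∧ ¬ Lv (B + 1) (U + T + 1) K N (lam l) (y l) (v l n).toNat then 1 else 0) := by
            rw [if_pos hsl, mul_one]
        _ ≤ _ := single_le_sum (f := fun l : Fin R => P b w 0 k n * (if 0 < v l n ∧
            ¬ Lv (B + 1) (U + T + 1) K N (lam l) (y l) (v l n).toNat then (1 : ℝ) else 0)) (fun l _ => hnn l) (mem_univ l)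
  refine (sum_le_sum hpt).trans ?_
  rw [sum_comm]
  refine (sum_le_sum fun l _ => hone l).trans ?_
  rw [sum_const, card_univ, Fintype.card_fin, nsmul_eq_mul, ← hL]
  rw [← hL] at hR hL4
  calc (R : ℝ) * (2 / L ^ (U + T + 1)) ≤ L ^ T * (2 / L ^ (U + T + 1)) := mul_le_mul_of_nonneg_right hR (by positivity)
    _ = 2 * L ^ T / L ^ (U + T + 1) := by ring
    _ ≤ L * L ^ T / L ^ (U + T + 1) := by
        apply div_le_div_of_nonneg_right _ (by positivity)
        apply mul_le_mul_of_nonneg_right _ (by positivity)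
        linarith
    _ = 1 / L ^ U := by
        rw [div_eq_div_iff (by positivity) (by positivity)]
        ring

end Pool.Agent.H92.Pd
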