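import Pool.Agent.H92.Pd.A7

set_option autoImplicit false

/-! Independent random digits: only the first `k` positions matter. -/

namespace Pool.Agent.H92.Pd
open Finset
open Pool.Agent.TH872.Sq

/-- `w i a`, for `i < k` and `a < b`, is the probability that the digit number `i` in base `b` is `a`, and no digit has a
probability larger than `1 - η`. -/
structure Digs (b k : ℕ) (η : ℝ) (w : ℕ → ℕ → ℝ) : Prop where
  nonneg : ∀ i < k, ∀ a < b, 0 ≤ w i a
  sum : ∀ i < k, ∑ a ∈ range b, w i a = 1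
  le : ∀ i < k, ∀ a < b, w i a ≤ 1 - η

/-- the probability of `n` -/
noncomputable def prb (b k : ℕ) (w : ℕ → ℕ → ℝ) (n : ℕ) : ℝ := ∏ i ∈ range k, w i (n / b ^ i % b)

/-- the extension to all positions -/
noncomputable def ext (b k : ℕ) (w : ℕ → ℕ → ℝ) (i a : ℕ) : ℝ := if a < b then (if i < k then w i a else w 0 a) else 0

lemma dig_ext {b k : ℕ} (hb : 2 ≤ b) (hk : 1 ≤ k) {η : ℝ} {w : ℕ → ℕ → ℝ} (hw : Digs b k η w) : Dig b η (ext b k w) := by
  have h1 := hw.nonneg 0 (by omega) 0 (by omega)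
  have h2 := hw.le 0 (by omega) 0 (by omega)
  refine ⟨fun i a => ?_, fun i => ?_, fun i a => ?_⟩
  · unfold ext
    split_ifs with ha hi
    · exact hw.nonneg i hi a ha
    · exact hw.nonneg 0 (by omega) a ha
    · exact le_rfl
  · by_cases hi : i < k
    · rw [← hw.sum i hi]
      apply sum_congr rfl
      intro a ha
      unfold ext
      rw [if_pos (mem_range.1 ha), if_pos hi]
    · rw [← hw.sum 0 (by omega)]
      apply sum_congr rfl
      intro a ha
      unfold ext
      rw [if_pos (mem_range.1 ha), if_neg hi]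
  · unfold ext
    split_ifs with ha hi
    · exact hw.le i hi a ha
    · exact hw.le 0 (by omega) a ha
    · linarith

lemma P_ext {b k : ℕ} (hb : 2 ≤ b) (w : ℕ → ℕ → ℝ) (n : ℕ) : P b (ext b k w) 0 k n = prb b k w n := by
  unfold P prb
  apply prod_congr rfl
  intro j hj
  unfold ext
  rw [if_pos (Nat.mod_lt _ (by omega)), zero_add, if_pos (mem_range.1 hj)]

/-- there is at least one digit -/
lemma k_pos (b d A : ℕ) : ∃ N₀ : ℕ, ∀ N : ℕ, N₀ ≤ N → ∀ k : ℕ, (N : ℝ) ≤ Real.log N ^ A * ((b : ℝ) ^ k) ^ d → 1 ≤ k := by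
  obtain ⟨n0, h0⟩ := log_pow_small A
  refine ⟨n0, fun N hN k hk => ?_⟩
  by_contra hcon
  have hk0 : k = 0 := by omega
  rw [hk0, pow_zero, one_pow, mul_one] at hk
  have := h0 N hN
  linarith

end Pool.Agent.H92.Pd
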