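import Pool.Agent.H92.Pd.A8
import Pool.Agent.Results.MP_51e72e_nt.ThinFamilySystems

set_option autoImplicit false

/-! Systems of linear polynomials with constant terms close to the values of polynomials at integers with random digits. -/

namespace Pool.Agent.H92.Pd
open Finset Polynomial
open Pool.Agent.TH872.Sq
open Pool.Agent.TH212.EH (En)
open Pool.Agent.Results.MP_51e72e_nt.ThinFamilySystems (Holds first)

/-- the integers close to a real number -/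
lemma near_int (V : ℕ) (x : ℝ) (L : ℝ) (a : ℤ) (h : |(a : ℝ) - x| ≤ L ^ V) : |a - ⌊x⌋| ≤ ((⌊L ^ V⌋₊ + 1 : ℕ) : ℤ) := by
  have h1 : |((a - ⌊x⌋ : ℤ) : ℝ)| < L ^ V + 1 := by
    push_cast
    have q1 := Int.floor_le x
    have q2 := Int.lt_floor_add_one x
    rw [abs_le] at h
    rw [abs_lt]
    constructor <;> linarith [h.1, h.2]
  have h2 : (((a - ⌊x⌋).natAbs : ℕ) : ℝ) < L ^ V + 1 := by
    rw [Nat.cast_natAbs]
    push_cast at h1 ⊢
    exact h1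
  have h3 : (a - ⌊x⌋).natAbs ≤ ⌊L ^ V⌋₊ + 1 := by
    have h4 : L ^ V < ⌊L ^ V⌋₊ + 1 := Nat.lt_floor_add_one _
    by_contra hcon
    push Not at hcon
    have h5 : ((⌊L ^ V⌋₊ + 1 + 1 : ℕ) : ℝ) ≤ (((a - ⌊x⌋).natAbs : ℕ) : ℝ) := by exact_mod_cast hcon
    push_cast at h5
    linarith
  rw [Int.abs_eq_natAbs]
  exact_mod_cast h3

lemma sum_pi_range {s : ℕ} (m : Fin s → ℕ) (f : (Fin s → ℕ) → ℝ) :
    ∑ n ∈ Fintype.piFinset (fun i => range (m i)), f n = ∑ a : ∀ i, Fin (m i), f (fun i => (a i : ℕ)) := by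
  symm
  apply Finset.sum_bij (fun (a : ∀ i, Fin (m i)) _ => fun i => (a i : ℕ))
  · intro a _
    exact Fintype.mem_piFinset.2 fun i => mem_range.2 (a i).2
  · intro a _ a' _ h
    funext i
    exact Fin.ext (congrFun h i)
  · intro n hn
    exact ⟨fun i => ⟨n i, mem_range.1 (Fintype.mem_piFinset.1 hn i)⟩, mem_univ _, rfl⟩
  · intro a _
    rfl

/-- the shifts -/
lemma shift_card (s J V : ℕ) (L : ℝ) (hL : 1 ≤ L) (hJ : (J : ℝ) ≤ L ^ V + 1) :
    ((Fintype.piFinset (fun _ : Fin s => Icc (-(J : ℤ)) J)).card : ℝ) ≤ 5 ^ s * L ^ (V * s) := by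
  rw [Fintype.card_piFinset, prod_const, card_univ, Fintype.card_fin, Int.card_Icc]
  have h1 : ((J : ℤ) + 1 - -(J : ℤ)).toNat = 2 * J + 1 := by omega
  rw [h1]
  push_cast
  have hLV : 1 ≤ L ^ V := one_le_pow₀ hL
  calc (2 * (J : ℝ) + 1) ^ s ≤ (5 * L ^ V) ^ s := pow_le_pow_left₀ (by positivity) (by linarith) s
    _ = _ := by rw [mul_pow, ← pow_mul]

open Classical in
/-- **Union over the shifts.** -/
theorem union_shifts {s : ℕ} (b k : Fin s → ℕ) (w : Fin s → ℕ → ℕ → ℝ) (F : Fin s → ℝ[X])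
    (hP0 : ∀ i n, 0 ≤ P (b i) (w i) 0 (k i) n) (V : ℕ) (L : ℝ) (hL : 1 ≤ L)
    (Good : (Fin s → ℤ) → Prop) (δ : ℝ) (hδ : 0 ≤ δ)
    (H : ∀ j : Fin s → ℤ, (∀ i, |j i| ≤ ((⌊L ^ V⌋₊ + 1 : ℕ) : ℤ)) → ∑ a : ∀ i, Fin (b i ^ k i),
      (if ¬ Good (fun i => ⌊(F i).eval ((a i : ℕ) : ℝ)⌋ + j i) then ∏ i, P (b i) (w i) 0 (k i) (a i) else 0) ≤ δ) :
    ∑ n ∈ Fintype.piFinset (fun i => range (b i ^ k i)), (if ∀ β : Fin s → ℤ, (∀ i, |(β i : ℝ) - (F i).eval (n i : ℝ)| ≤ L ^ V) → Good β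
      then 0 else ∏ i, P (b i) (w i) 0 (k i) (n i)) ≤ 5 ^ s * L ^ (V * s) * δ := by
  obtain ⟨J, hJ⟩ : ∃ J : ℕ, J = ⌊L ^ V⌋₊ + 1 := ⟨_, rfl⟩
  have hJ2 : (J : ℝ) ≤ L ^ V + 1 := by
    rw [hJ]
    push_cast
    have := Nat.floor_le (show 0 ≤ L ^ V by positivity)
    linarith
  rw [← hJ] at H
  rw [sum_pi_range (fun i => b i ^ k i)]
  have hpt : ∀ a : (∀ i, Fin (b i ^ k i)), (if ∀ β : Fin s → ℤ, (∀ i, |(β i : ℝ) - (F i).eval ((a i : ℕ) : ℝ)| ≤ L ^ V) → Good β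
      then 0 else ∏ i, P (b i) (w i) 0 (k i) (a i)) ≤ ∑ j ∈ Fintype.piFinset (fun _ : Fin s => Icc (-(J : ℤ)) J),
      (if ¬ Good (fun i => ⌊(F i).eval ((a i : ℕ) : ℝ)⌋ + j i) then ∏ i, P (b i) (w i) 0 (k i) (a i) else 0) := by
    intro a
    have hnn : ∀ j : Fin s → ℤ, 0 ≤ (if ¬ Good (fun i => ⌊(F i).eval ((a i : ℕ) : ℝ)⌋ + j i) then ∏ i, P (b i) (w i) 0 (k i) (a i) else 0) := by
      intro j
      split_ifs
      · exact le_rfl
      · exact prod_nonneg fun i _ => hP0 i _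
    split_ifs with hgood
    · exact sum_nonneg fun j _ => hnn j
    · push Not at hgood
      obtain ⟨β, hβ, hbad⟩ := hgood
      have hmem : (fun i => β i - ⌊(F i).eval ((a i : ℕ) : ℝ)⌋) ∈ Fintype.piFinset (fun _ : Fin s => Icc (-(J : ℤ)) J) := by
        rw [Fintype.mem_piFinset]
        intro i
        rw [mem_Icc]
        have := near_int V ((F i).eval ((a i : ℕ) : ℝ)) L (β i) (hβ i)
        rw [← hJ] at this
        exact abs_le.1 this
      have hs1 := single_le_sum (f := fun j : Fin s → ℤ => (if ¬ Good (fun i => ⌊(F i).eval ((a i : ℕ) : ℝ)⌋ + j i) then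
        ∏ i, P (b i) (w i) 0 (k i) (a i) else 0)) (fun j _ => hnn j) hmem
      have hb : (fun i => ⌊(F i).eval ((a i : ℕ) : ℝ)⌋ + (β i - ⌊(F i).eval ((a i : ℕ) : ℝ)⌋)) = β := by
        funext i
        ring
      simp only [hb] at hs1
      rw [if_pos hbad] at hs1
      exact hs1
  refine (sum_le_sum fun a _ => hpt a).trans ?_
  rw [sum_comm]
  calc _ ≤ ∑ j ∈ Fintype.piFinset (fun _ : Fin s => Icc (-(J : ℤ)) J), δ := by
        apply sum_le_sum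
        intro j hj
        apply H j
        intro i
        exact abs_le.2 (mem_Icc.1 (Fintype.mem_piFinset.1 hj i))
    _ = _ := by rw [sum_const, nsmul_eq_mul]
    _ ≤ _ := mul_le_mul_of_nonneg_right (shift_card s J V L hL hJ2) hδ

open Classical in
/-- systems of linear polynomials -/
theorem systems {s : ℕ} (hs : 1 ≤ s) (b e : Fin s → ℕ) (hb : ∀ i, 2 ≤ b i) (he : ∀ i, 1 ≤ e i) (A B Cw D U V : ℕ)
    (η : ℝ) (hη : 0 < η) (ε : ℝ) (hε : 0 < ε) : ∃ N₀ : ℕ, ∀ N : ℕ, N₀ ≤ N →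
    ∀ k : Fin s → ℕ, (∀ i, (N : ℝ) ≤ Real.log N ^ A * (b i : ℝ) ^ ((e i + 1) * k i)) →
    ∀ w : Fin s → ℕ → ℕ → ℝ, (∀ i, Dig (b i) η (w i)) → ∀ F : Fin s → ℝ[X], (∀ i, (F i).natDegree ≤ e i + 1) →
    (∀ i, 1 / Real.log N ^ A ≤ |(F i).coeff (e i + 1)|) → (∀ i, |(F i).coeff (e i + 1)| ≤ Real.log N ^ A) →
    (∀ i, ∀ n < b i ^ k i, P (b i) (w i) 0 (k i) n ≠ 0 → |(F i).eval (n : ℝ)| ≤ B * N) →
    ∑ n ∈ Fintype.piFinset (fun i => range (b i ^ k i)), (if ∀ β : Fin s → ℤ, (∀ i, |(β i : ℝ) - (F i).eval (n i : ℝ)| ≤ Real.log N ^ V) →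
      Holds ε Cw B D N β then 0 else ∏ i, P (b i) (w i) 0 (k i) (n i)) ≤ 1 / Real.log N ^ U := by
  choose h₀ hh₀ hyp using fun i => digits_hyp (b i) (e i) A V (hb i) (he i) η hη
  obtain ⟨h, hh⟩ : ∃ h, h = ∑ i, h₀ i := ⟨_, rfl⟩
  have hhi : ∀ i, h₀ i ≤ h := fun i => by rw [hh]; exact single_le_sum (f := h₀) (fun _ _ => Nat.zero_le _) (mem_univ i)
  choose M₀ hM₀ using fun i => hyp i h (hhi i)
  obtain ⟨Mt, hMt⟩ : ∃ Mt, Mt = ∑ i, M₀ i := ⟨_, rfl⟩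
  have hMi : ∀ i, M₀ i ≤ Mt := fun i => by rw [hMt]; exact single_le_sum (f := M₀) (fun _ _ => Nat.zero_le _) (mem_univ i)
  obtain ⟨U', hU'⟩ : ∃ U', U' = U + V * s + 1 := ⟨_, rfl⟩
  obtain ⟨n2, h2⟩ := first s h Cw (B + 1) (3 * A + V + 1) D U' hs ε hε
  obtain ⟨n3, h3⟩ := log_pow_small V
  obtain ⟨n4, h4⟩ := Pool.Agent.TH212.EH.large ((5 : ℝ) ^ s) 3
  refine ⟨Mt + n2 + n3 + n4, fun N hN k hk w hw F hF hα1 hα2 hFB => ?_⟩
  obtain ⟨hN3, hL5, hL1⟩ := h4 N (by omega)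
  have hVN := h3 N (by omega)
  obtain ⟨L, hL⟩ : ∃ L, L = Real.log (N : ℝ) := ⟨_, rfl⟩
  rw [← hL] at hL5 hL1 hVN
  have hL0 : 0 < L := by linarith
  have hu := union_shifts b k w F (fun i n => P_nonneg (hw i) 0 (k i) n) V L hL1 (fun β => Holds ε Cw B D N β) (1 / L ^ U') (by positivity) (by
    intro j hj
    have hjr : ∀ i, |(j i : ℝ)| ≤ L ^ V + 1 := by
      intro i
      have q1 : |((j i : ℤ) : ℝ)| ≤ ((⌊L ^ V⌋₊ + 1 : ℕ) : ℝ) := by exact_mod_cast hj i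
      have q2 := Nat.floor_le (show 0 ≤ L ^ V by positivity)
      push_cast at q1
      linarith
    obtain ⟨Bad, hBad⟩ : ∃ Bad : (∀ i, Fin (b i ^ k i)) → Prop, Bad = fun a =>
      ¬ Holds ε Cw B D N (fun i => ⌊(F i).eval ((a i : ℕ) : ℝ)⌋ + j i) := ⟨_, rfl⟩
    have hgoal : ∑ a : ∀ i, Fin (b i ^ k i), (if ¬ Holds ε Cw B D N (fun i => ⌊(F i).eval ((a i : ℕ) : ℝ)⌋ + j i) then
        ∏ i, P (b i) (w i) 0 (k i) (a i) else 0) = ∑ a : ∀ i, Fin (b i ^ k i), (if Bad a then ∏ i, P (b i) (w i) 0 (k i) (a i) else 0) := by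
      apply sum_congr rfl
      intro a _
      rw [hBad]
      by_cases hH : Holds ε Cw B D N (fun i => ⌊(F i).eval ((a i : ℕ) : ℝ)⌋ + j i)
      · rw [if_neg (not_not.2 hH), if_neg (not_not.2 hH)]
      · rw [if_pos hH, if_pos hH]
    rw [hgoal]
    apply transfer h (fun i => Fin (b i ^ k i)) (fun i n => P (b i) (w i) 0 (k i) n) (fun i n => P_nonneg (hw i) 0 (k i) n)
      (fun i => by
        rw [← Finset.sum_range (fun n => P (b i) (w i) 0 (k i) n)]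
        exact P_sum (by have := hb i; omega) (hw i) 0 (k i)) (fun i n => ⌊(F i).eval ((n : ℕ) : ℝ)⌋ + j i)
      Bad (1 / L ^ U') (by positivity)
    intro ι _ g hg hEn
    have h5 := h2 N (by omega) ι (fun i q => ⌊(F i).eval ((g i q : ℕ) : ℝ)⌋ + j i) (by
      intro i q
      have q0 := hFB i (g i q) (g i q).2 (hg i q)
      have q1 := Int.floor_le ((F i).eval ((g i q : ℕ) : ℝ))
      have q2 := Int.lt_floor_add_one ((F i).eval ((g i q : ℕ) : ℝ))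
      have q3 : |((⌊(F i).eval ((g i q : ℕ) : ℝ)⌋ + j i : ℤ) : ℝ)| ≤ (((B + 1 : ℕ) * N : ℤ) : ℝ) := by
        have q4 := hjr i
        rw [abs_le] at q0 q4
        push_cast
        rw [abs_le]
        constructor <;> linarith [q0.1, q0.2, q4.1, q4.2]
      exact_mod_cast q3) (by
      intro i
      have hE := hM₀ i N (by have := hMi i; omega) (k i) (hk i) (w i) (hw i) (F i) (hF i) (hα1 i) (hα2 i)
        (fun n => ⌊(F i).eval (n : ℝ)⌋ + j i) (by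
          intro n _ _
          have q1 := Int.floor_le ((F i).eval (n : ℝ))
          have q2 := Int.lt_floor_add_one ((F i).eval (n : ℝ))
          have q4 := hjr i
          rw [abs_le] at q4
          rw [← hL]
          push_cast
          rw [abs_le]
          constructor <;> linarith [q4.1, q4.2])
      have hEi := hEn i
      calc (Pool.Agent.Results.MP_51e72e_nt.ThinFamilySystems.energy h (fun q => ⌊(F i).eval ((g i q : ℕ) : ℝ)⌋ + j i) : ℝ) * N =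
          (En h (fun q => ⌊(F i).eval ((g i q : ℕ) : ℝ)⌋ + j i) : ℝ) * N := rfl
        _ ≤ (EW h (fun n : Fin (b i ^ k i) => P (b i) (w i) 0 (k i) n) (fun n : Fin (b i ^ k i) => ⌊(F i).eval ((n : ℕ) : ℝ)⌋ + j i) * 2 ^ (2 * h) *
            (Fintype.card (ι i) : ℝ) ^ (2 * h)) * N := mul_le_mul_of_nonneg_right hEi (Nat.cast_nonneg _)
        _ = (EW h (fun n : Fin (b i ^ k i) => P (b i) (w i) 0 (k i) n) (fun n : Fin (b i ^ k i) => ⌊(F i).eval ((n : ℕ) : ℝ)⌋ + j i) * 2 ^ (2 * h) * N) *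
            (Fintype.card (ι i) : ℝ) ^ (2 * h) := by ring
        _ ≤ _ := mul_le_mul_of_nonneg_right hE (by positivity))
    unfold Pool.Agent.Results.MP_51e72e_nt.ThinFamilySystems.exceptions at h5
    rw [← hL] at h5
    have h6 : (univ.filter (fun q : ∀ i, ι i => Bad (fun i => g i (q i)))) ⊆
        (univ.filter (fun q : ∀ i, ι i => ¬ Holds ε Cw (B + 1) D N (fun i => ⌊(F i).eval ((g i (q i) : ℕ) : ℝ)⌋ + j i))) := by
      intro q hq
      rw [mem_filter, hBad] at hq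
      rw [mem_filter]
      refine ⟨mem_univ _, fun hgd => hq.2 ?_⟩
      intro α hα hadm
      obtain ⟨c, hc0, hc1, hc2⟩ := hgd α hα hadm
      exact ⟨c, hc0, hc1, fun y₁ y₂ h12 hy2 hΔ => hc2 y₁ y₂ h12 (hy2.trans (Nat.mul_le_mul_right _ (by omega))) hΔ⟩
    have h7 : ((univ.filter (fun q : ∀ i, ι i => Bad (fun i => g i (q i)))).card : ℝ) ≤
        ((univ.filter (fun q : ∀ i, ι i => ¬ Holds ε Cw (B + 1) D N (fun i => ⌊(F i).eval ((g i (q i) : ℕ) : ℝ)⌋ + j i))).card : ℝ) := by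
      exact_mod_cast card_le_card h6
    refine h7.trans (h5.trans (le_of_eq ?_))
    ring)
  rw [← hL]
  refine hu.trans ?_
  calc (5 : ℝ) ^ s * L ^ (V * s) * (1 / L ^ U') ≤ L * L ^ (V * s) * (1 / L ^ U') := by
        apply mul_le_mul_of_nonneg_right _ (by positivity)
        exact mul_le_mul_of_nonneg_right hL5 (by positivity)
    _ = 1 / L ^ U := by
        rw [hU', mul_one_div, div_eq_div_iff (by positivity) (by positivity)]
        ring

end Pool.Agent.H92.Pd
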