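import Pool.Agent.H92.Pd.B1
import Pool.Agent.N699.ST.Tra

set_option autoImplicit false

/-! Primes `q` for which all `d_i q + a_i` are primes, for `a_i` close to the values of polynomials at integers with random
digits. -/

namespace Pool.Agent.H92.Pd
open Finset Polynomial
open Pool.Agent.TH872.Sq
open Pool.Agent.TH212.EH (En S1 base)
open Pool.Agent.N469.PT (OneLaw)
open Pool.Agent.N699.ST (AllS ws_all)

/-- the laws of the natural numbers `v n` close to the values of a polynomial at integers `n` with random digits -/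
def Lw (b e A B V : ℕ) (η : ℝ) (N : ℕ) (Ω : Finset ℕ) (p : ℕ → ℝ) : Prop :=
  ∃ (k : ℕ) (w : ℕ → ℕ → ℝ) (F : ℝ[X]) (v : ℕ → ℕ), (N : ℝ) ≤ Real.log N ^ A * (b : ℝ) ^ ((e + 1) * k) ∧ Dig b η w ∧
    F.natDegree ≤ e + 1 ∧ 1 / Real.log N ^ A ≤ |F.coeff (e + 1)| ∧ |F.coeff (e + 1)| ≤ Real.log N ^ A ∧
    (∀ n < b ^ k, P b w 0 k n ≠ 0 → |F.eval (n : ℝ) - v n| ≤ Real.log N ^ V + 2) ∧ (∀ n, v n ≤ B * N) ∧
    Ω = (range (b ^ k)).image v ∧ p = fun u => ∑ n ∈ (range (b ^ k)).filter (fun n => v n = u), P b w 0 k n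

lemma push1 (m : ℕ) (p : ℕ → ℝ) (v : ℕ → ℕ) (Y : ℕ → ℝ) :
    ∑ u ∈ (range m).image v, (∑ n ∈ (range m).filter (fun n => v n = u), p n) * Y u = ∑ n : Fin m, p n * Y (v n) := by
  rw [← Finset.sum_range (fun n => p n * Y (v n))]
  have hmaps : ∀ n ∈ range m, v n ∈ (range m).image v := fun n hn => mem_image_of_mem v hn
  rw [← sum_fiberwise_of_maps_to hmaps]
  apply sum_congr rfl
  intro u _
  rw [sum_mul]
  apply sum_congr rfl
  intro n hn
  rw [(mem_filter.1 hn).2]

open Classical in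
lemma pushs {s : ℕ} (m : Fin s → ℕ) (p : Fin s → ℕ → ℝ) (v : Fin s → ℕ → ℕ) (Bad : (Fin s → ℕ) → Prop) :
    ∑ u ∈ Fintype.piFinset (fun i => (range (m i)).image (v i)),
      (if Bad u then ∏ i, (∑ n ∈ (range (m i)).filter (fun n => v i n = u i), p i n) else 0) =
    ∑ n ∈ Fintype.piFinset (fun i => range (m i)), (if Bad (fun i => v i (n i)) then ∏ i, p i (n i) else 0) := by
  have hmaps : ∀ n ∈ Fintype.piFinset (fun i => range (m i)), (fun i => v i (n i)) ∈ Fintype.piFinset (fun i => (range (m i)).image (v i)) := by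
    intro n hn
    rw [Fintype.mem_piFinset] at hn ⊢
    exact fun i => mem_image_of_mem _ (hn i)
  rw [← sum_fiberwise_of_maps_to hmaps]
  apply sum_congr rfl
  intro u _
  have hfil : (Fintype.piFinset (fun i => range (m i))).filter (fun n => (fun i => v i (n i)) = u) =
      Fintype.piFinset (fun i => (range (m i)).filter (fun n => v i n = u i)) := by
    ext n
    rw [mem_filter, Fintype.mem_piFinset, Fintype.mem_piFinset]
    constructor
    · rintro ⟨h1, h2⟩ i
      exact mem_filter.2 ⟨h1 i, congrFun h2 i⟩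
    · intro h
      exact ⟨fun i => (mem_filter.1 (h i)).1, funext fun i => (mem_filter.1 (h i)).2⟩
  by_cases hB : Bad u
  · rw [if_pos hB, prod_univ_sum, ← hfil]
    apply sum_congr rfl
    intro n hn
    rw [(mem_filter.1 hn).2, if_pos hB]
  · rw [if_neg hB]
    symm
    apply sum_eq_zero
    intro n hn
    rw [(mem_filter.1 hn).2, if_neg hB]

lemma atom_le (h : ℕ) {α : Type} [Fintype α] (p : α → ℝ) (hp : ∀ i, 0 ≤ p i) (v : α → ℤ) (u : ℤ) :
    (∑ n, if v n = u then p n else 0) ^ (2 * h) ≤ EW h p v := by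
  classical
  rw [two_mul, pow_add, Fintype.sum_pow, sum_mul_sum]
  unfold EW
  apply sum_le_sum
  intro a _
  apply sum_le_sum
  intro c _
  have hnn : 0 ≤ (∏ j, p (a j)) * ∏ j, p (c j) := mul_nonneg (prod_nonneg fun _ _ => hp _) (prod_nonneg fun _ _ => hp _)
  by_cases ha : ∀ j, v (a j) = u
  · by_cases hc : ∀ j, v (c j) = u
    · rw [if_pos (by simp only [ha, hc])]
      simp only [ha, hc, if_true]
      exact le_rfl
    · push Not at hc
      obtain ⟨j, hj⟩ := hc
      rw [prod_eq_zero (f := fun j => if v (c j) = u then p (c j) else 0) (mem_univ j) (if_neg hj), mul_zero]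
      split_ifs
      · exact hnn
      · exact le_rfl
  · push Not at ha
    obtain ⟨j, hj⟩ := ha
    rw [prod_eq_zero (f := fun j => if v (a j) = u then p (a j) else 0) (mem_univ j) (if_neg hj), zero_mul]
    split_ifs
    · exact hnn
    · exact le_rfl

theorem one_digits (b e A B V U : ℕ) (hb : 2 ≤ b) (he : 1 ≤ e) (η : ℝ) (hη : 0 < η) : OneLaw (Lw b e A B V η) 1 0 U := by
  classical
  obtain ⟨h, hh, hyp⟩ := digits_hyp b e A V hb he η hη
  obtain ⟨n1, h1⟩ := hyp h le_rfl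
  obtain ⟨C, hC⟩ : ∃ C, C = 3 * A + V + 1 := ⟨_, rfl⟩
  obtain ⟨B0, hB0⟩ := base h (B + 1) C U
  refine ⟨B, B0, fun E => ?_⟩
  obtain ⟨n2, h2⟩ := hB0 E
  obtain ⟨n3, h3⟩ := log_pow_small (C + 2 * h * U)
  obtain ⟨n4, h4⟩ := Pool.Agent.TH212.EH.large 3 3
  refine ⟨n1 + n2 + n3 + n4, fun N hN Ω p hLw cc hcc => ?_⟩
  obtain ⟨k, w, F, v, hk, hw, hF, hα1, hα2, hv, hvB, hΩ, hp⟩ := hLw
  obtain ⟨hN3, _, hL1⟩ := h4 N (by omega)
  have hNs := h3 N (by omega)
  have hcc0 : cc = 0 := by omega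
  have hP0 : ∀ n : Fin (b ^ k), 0 ≤ P b w 0 k n := fun n => P_nonneg hw _ _ _
  have hP1 : ∑ n : Fin (b ^ k), P b w 0 k n = 1 := by
    rw [← Finset.sum_range (fun n => P b w 0 k n)]
    exact P_sum (by omega) hw 0 k
  have hE := h1 N (by omega) k hk w hw F hF hα1 hα2 (fun n => (v n : ℤ)) (fun n hn hne => by
    push_cast
    exact hv n hn hne)
  rw [← hC] at hE
  have hL0 : 0 < Real.log N := by linarith
  have hN0 : (0 : ℝ) < N := by exact_mod_cast (by omega : 0 < N)
  have hsum : ∀ Y : ℕ → ℝ, ∑ u ∈ Ω, p u * Y u = ∑ n : Fin (b ^ k), P b w 0 k n * Y (v n) := by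
    intro Y
    rw [hΩ, hp]
    exact push1 (b ^ k) (fun n => P b w 0 k n) v Y
  refine ⟨fun u _ => ?_, ?_, fun u hu => ?_, fun u hu => ?_, fun z hz1 hz2 Kc hKc G hG => ?_⟩
  · rw [hp]
    exact sum_nonneg fun n _ => P_nonneg hw _ _ _
  · have := hsum (fun _ => 1)
    simp only [mul_one] at this
    rw [this, hP1]
  · -- atoms
    have hpu : p u = ∑ n : Fin (b ^ k), if ((v n : ℕ) : ℤ) = (u : ℤ) then P b w 0 k n else 0 := by
      rw [hp]
      simp only
      rw [sum_filter, ← Finset.sum_range (fun n => if ((v n : ℕ) : ℤ) = (u : ℤ) then P b w 0 k n else 0)]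
      apply sum_congr rfl
      intro n _
      by_cases hvn : v n = u
      · rw [if_pos hvn, if_pos (by exact_mod_cast hvn)]
      · rw [if_neg hvn, if_neg (by exact_mod_cast hvn)]
    have hat := atom_le h (fun n : Fin (b ^ k) => P b w 0 k n) hP0 (fun n : Fin (b ^ k) => (v n : ℤ)) (u : ℤ)
    rw [← hpu] at hat
    have hp0 : 0 ≤ p u := by
      rw [hp]
      exact sum_nonneg fun n _ => P_nonneg hw _ _ _
    have h5 : EW h (fun n : Fin (b ^ k) => P b w 0 k n) (fun n : Fin (b ^ k) => (v n : ℤ)) * N ≤ Real.log N ^ C := by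
      refine le_trans ?_ hE
      apply mul_le_mul_of_nonneg_right _ hN0.le
      apply le_mul_of_one_le_right (EW_nonneg h _ hP0 _)
      exact one_le_pow₀ (by norm_num)
    have h6 : p u ^ (2 * h) ≤ (1 / Real.log N ^ U) ^ (2 * h) := by
      have h7 : p u ^ (2 * h) * N ≤ Real.log N ^ C := (mul_le_mul_of_nonneg_right hat hN0.le).trans h5
      have h8 : Real.log N ^ (C + 2 * h * U) ≤ N := by linarith
      rw [div_pow, one_pow, le_div_iff₀ (by positivity), ← pow_mul]
      have h9 : p u ^ (2 * h) * Real.log N ^ (U * (2 * h)) * Real.log N ^ C ≤ 1 * Real.log N ^ C := by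
        calc p u ^ (2 * h) * Real.log N ^ (U * (2 * h)) * Real.log N ^ C = p u ^ (2 * h) * Real.log N ^ (C + 2 * h * U) := by
              rw [pow_add, mul_assoc]
              congr 1
              rw [mul_comm]
              congr 2
              ring
          _ ≤ p u ^ (2 * h) * N := mul_le_mul_of_nonneg_left h8 (by positivity)
          _ ≤ _ := by rw [one_mul]; exact h7
      exact le_of_mul_le_mul_right h9 (by positivity)
    exact le_of_pow_le_pow_left₀ (by omega : 2 * h ≠ 0) (by positivity) h6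
  · rw [hΩ, mem_image] at hu
    obtain ⟨n, _, rfl⟩ := hu
    rw [hcc0, zero_add, one_mul]
    exact hvB n
  · -- first moments
    obtain ⟨G', hG'⟩ : ∃ G' : ℕ → ℝ, G' = fun n => if n ∈ Icc 1 N then G n / Kc else 0 := ⟨_, rfl⟩
    have hG1 : ∀ n, |G' n| ≤ 1 := by
      intro n
      rw [hG']
      simp only
      split_ifs with hn
      · rw [abs_div, abs_of_pos hKc, div_le_one hKc]
        exact hG n hn
      · rw [abs_zero]; norm_num
    have hS : ∀ u : ℕ, ∑ n ∈ Icc 1 N, G n * (Pool.Agent.H373R2.T7.lamI ((n : ℤ) + ((cc + 1 * u : ℕ) : ℤ)) -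
        Pool.Agent.H373R2.T7.lamzI z ((n : ℤ) + ((cc + 1 * u : ℕ) : ℤ))) = Kc * S1 G' z N (u : ℤ) := by
      intro u
      unfold S1 Pool.Agent.W93.AU.dI
      rw [mul_sum]
      apply sum_congr rfl
      intro n hn
      rw [hG', hcc0, zero_add, one_mul]
      simp only
      rw [if_pos hn]
      field_simp
    simp only [hS, abs_mul, abs_of_pos hKc]
    have h5 := transfer1 h (fun n : Fin (b ^ k) => P b w 0 k n) hP0 hP1 (fun n : Fin (b ^ k) => (v n : ℤ))
      (fun n : Fin (b ^ k) => |S1 G' z N ((v n : ℕ) : ℤ)|) (N / Real.log N ^ U) (by positivity) (by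
      intro ι _ g hg hEn
      have h6 := (h2 N (by omega) ι (fun i => ((v (g i) : ℕ) : ℤ)) (by
        intro i
        have q1 := hvB (g i)
        rw [abs_of_nonneg (Int.natCast_nonneg _)]
        have q2 : v (g i) ≤ (B + 1) * N := q1.trans (Nat.mul_le_mul_right _ (by omega))
        exact_mod_cast q2) (by
        calc (En h (fun i => ((v (g i) : ℕ) : ℤ)) : ℝ) * N ≤
            (EW h (fun n : Fin (b ^ k) => P b w 0 k n) (fun n : Fin (b ^ k) => (v n : ℤ)) * 2 ^ (2 * h) * (Fintype.card ι : ℝ) ^ (2 * h)) * N :=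
              mul_le_mul_of_nonneg_right hEn hN0.le
          _ = (EW h (fun n : Fin (b ^ k) => P b w 0 k n) (fun n : Fin (b ^ k) => (v n : ℤ)) * 2 ^ (2 * h) * N) * (Fintype.card ι : ℝ) ^ (2 * h) := by
              ring
          _ ≤ _ := mul_le_mul_of_nonneg_right hE (by positivity)) z hz1 hz2 N (Nat.le_mul_of_pos_left _ (by omega)) G' hG1).1
      refine h6.trans (le_of_eq ?_)
      ring)
    have h7 := hsum (fun u => Kc * |S1 G' z N (u : ℤ)|)
    rw [h7]
    calc ∑ n : Fin (b ^ k), P b w 0 k n * (Kc * |S1 G' z N ((v n : ℕ) : ℤ)|) =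
          Kc * ∑ n : Fin (b ^ k), P b w 0 k n * |S1 G' z N ((v n : ℕ) : ℤ)| := by
            rw [mul_sum]
            apply sum_congr rfl
            intro n _
            ring
      _ ≤ _ := mul_le_mul_of_nonneg_left h5 hKc.le

open Classical in
/-- constants close to the values of polynomials at integers with random digits -/
theorem consts {s : ℕ} (hs : 1 ≤ s) (b e : Fin s → ℕ) (hb : ∀ i, 2 ≤ b i) (he : ∀ i, 1 ≤ e i) (A B Cw U V : ℕ)
    (η : ℝ) (hη : 0 < η) (ε : ℝ) (hε : 0 < ε) : ∃ N₀ : ℕ, ∀ N : ℕ, N₀ ≤ N →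
    ∀ k : Fin s → ℕ, (∀ i, (N : ℝ) ≤ Real.log N ^ A * (b i : ℝ) ^ ((e i + 1) * k i)) →
    ∀ w : Fin s → ℕ → ℕ → ℝ, (∀ i, Dig (b i) η (w i)) → ∀ F : Fin s → ℝ[X], (∀ i, (F i).natDegree ≤ e i + 1) →
    (∀ i, 1 / Real.log N ^ A ≤ |(F i).coeff (e i + 1)|) → (∀ i, |(F i).coeff (e i + 1)| ≤ Real.log N ^ A) →
    (∀ i, ∀ n < b i ^ k i, P (b i) (w i) 0 (k i) n ≠ 0 → 0 ≤ (F i).eval (n : ℝ) ∧ (F i).eval (n : ℝ) ≤ B * N) →
    ∑ n ∈ Fintype.piFinset (fun i => range (b i ^ k i)), (if ∀ a : Fin s → ℕ, (∀ i, |(a i : ℝ) - (F i).eval (n i : ℝ)| ≤ Real.log N ^ V) →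
      AllS ε Cw U N a then 0 else ∏ i, P (b i) (w i) 0 (k i) (n i)) ≤ 1 / Real.log N ^ U := by
  obtain ⟨U', hU'⟩ : ∃ U', U' = U + V * s + 1 := ⟨_, rfl⟩
  obtain ⟨V', hV'⟩ : ∃ V', V' = 2 * (U' + 1) + Cw * (s + 2) + 3 := ⟨_, rfl⟩
  obtain ⟨n1, h1⟩ := ws_all s hs (fun i => Lw (b i) (e i) A (B + 1) V η) (fun _ => 1) (fun _ => le_rfl) 0 U' Cw V' hV' ε hε
    (fun i => one_digits (b i) (e i) A (B + 1) V _ (hb i) (he i) η hη)
  obtain ⟨n3, h3⟩ := log_pow_small V
  obtain ⟨n4, h4⟩ := Pool.Agent.TH212.EH.large ((5 : ℝ) ^ s) 3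
  refine ⟨n1 + n3 + n4, fun N hN k hk w hw F hF hα1 hα2 hFB => ?_⟩
  obtain ⟨hN3, hL5, hL1⟩ := h4 N (by omega)
  have hVN := h3 N (by omega)
  obtain ⟨L, hL⟩ : ∃ L, L = Real.log (N : ℝ) := ⟨_, rfl⟩
  rw [← hL] at hL5 hL1 hVN
  have hL0 : 0 < L := by linarith
  have hP0 : ∀ i n, 0 ≤ P (b i) (w i) 0 (k i) n := fun i n => P_nonneg (hw i) 0 (k i) n
  obtain ⟨Good, hGood⟩ : ∃ Good : (Fin s → ℤ) → Prop, Good = fun β => (∀ i, 0 ≤ β i) → AllS ε Cw U N (fun i => (β i).toNat) := ⟨_, rfl⟩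
  have hmono : ∀ a : Fin s → ℕ, AllS ε Cw U' N a → AllS ε Cw U N a := by
    intro a ha j d hj hd hadm
    obtain ⟨S, hS0, hS1, hS2, hS3⟩ := ha j d hj hd hadm
    refine ⟨S, hS0, hS1, hS2.trans ?_, hS3⟩
    rw [← hL]
    exact div_le_div_of_nonneg_left (Nat.cast_nonneg _) (by positivity) (pow_le_pow_right₀ hL1 (by omega))
  have hu := union_shifts b k w F hP0 V L hL1 Good (1 / L ^ U') (by positivity) (by
    intro j hj
    have hjr : ∀ i, |(j i : ℝ)| ≤ L ^ V + 1 := by
      intro i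
      have q1 : |((j i : ℤ) : ℝ)| ≤ ((⌊L ^ V⌋₊ + 1 : ℕ) : ℝ) := by exact_mod_cast hj i
      have q2 := Nat.floor_le (show 0 ≤ L ^ V by positivity)
      push_cast at q1
      linarith
    obtain ⟨v, hv⟩ : ∃ v : Fin s → ℕ → ℕ, v = fun i n => if n < b i ^ k i ∧ P (b i) (w i) 0 (k i) n ≠ 0 then
      (⌊(F i).eval (n : ℝ)⌋ + j i).toNat else 0 := ⟨_, rfl⟩
    have hvn : ∀ i n, n < b i ^ k i → P (b i) (w i) 0 (k i) n ≠ 0 → v i n = (⌊(F i).eval (n : ℝ)⌋ + j i).toNat := by
      intro i n hn hne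
      rw [hv]
      exact if_pos ⟨hn, hne⟩
    have hclose : ∀ i, ∀ n < b i ^ k i, P (b i) (w i) 0 (k i) n ≠ 0 → |(F i).eval (n : ℝ) - v i n| ≤ L ^ V + 2 := by
      intro i n hn hne
      rw [hvn i n hn hne]
      have q0 := (hFB i n hn hne).1
      have q1 := Int.floor_le ((F i).eval (n : ℝ))
      have q2 := Int.lt_floor_add_one ((F i).eval (n : ℝ))
      have q4 := hjr i
      rw [abs_le] at q4
      rcases le_total 0 (⌊(F i).eval (n : ℝ)⌋ + j i) with hc | hc
      · have q5 : (((⌊(F i).eval (n : ℝ)⌋ + j i).toNat : ℕ) : ℝ) = (⌊(F i).eval (n : ℝ)⌋ : ℝ) + j i := by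
          have := Int.toNat_of_nonneg hc
          exact_mod_cast this
        rw [q5, abs_le]
        constructor <;> linarith [q4.1, q4.2]
      · have q5 : (((⌊(F i).eval (n : ℝ)⌋ + j i).toNat : ℕ) : ℝ) = 0 := by
          rw [Int.toNat_of_nonpos hc]
          simp
        have q6 : (⌊(F i).eval (n : ℝ)⌋ : ℝ) + j i ≤ 0 := by exact_mod_cast hc
        rw [q5, abs_le]
        constructor <;> linarith [q4.1, q4.2]
    have hbd : ∀ i n, v i n ≤ (B + 1) * N := by
      intro i n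
      by_cases hc : n < b i ^ k i ∧ P (b i) (w i) 0 (k i) n ≠ 0
      · have q0 := hclose i n hc.1 hc.2
        have q1 := (hFB i n hc.1 hc.2).2
        rw [abs_le] at q0
        have q2 : ((v i n : ℕ) : ℝ) ≤ (((B + 1) * N : ℕ) : ℝ) := by
          push_cast
          linarith [q0.1]
        exact_mod_cast q2
      · rw [hv]
        simp only
        rw [if_neg hc]
        exact Nat.zero_le _
    have h5 := h1 N (by omega) (fun i => (range (b i ^ k i)).image (v i))
      (fun i u => ∑ n ∈ (range (b i ^ k i)).filter (fun n => v i n = u), P (b i) (w i) 0 (k i) n)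
      (fun i => ⟨k i, w i, F i, v i, hk i, hw i, hF i, hα1 i, hα2 i, by rw [← hL]; exact hclose i, hbd i, rfl, rfl⟩)
      (fun i u _ => sum_nonneg fun n _ => hP0 i n) (fun _ => 0) (fun i => by simp)
    rw [← hL] at h5
    have h6 : ∀ m : Fin s → ℕ, (fun i => (fun _ : Fin s => 0) i + (fun _ : Fin s => 1) i * m i) = m := by
      intro m
      funext i
      simp
    simp only [zero_add, one_mul] at h5
    obtain ⟨Bad, hBad⟩ : ∃ Bad : (Fin s → ℕ) → Prop, Bad = fun m => ¬ AllS ε Cw U' N m := ⟨_, rfl⟩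
    have h7 : ∑ m ∈ Fintype.piFinset (fun i => (range (b i ^ k i)).image (v i)), (if Bad m then
        ∏ i, (∑ n ∈ (range (b i ^ k i)).filter (fun n => v i n = m i), P (b i) (w i) 0 (k i) n) else 0) ≤ 1 / L ^ U' := by
      refine le_trans (le_of_eq ?_) h5
      apply sum_congr rfl
      intro m _
      rw [hBad]
      by_cases hH : AllS ε Cw U' N m
      · rw [if_neg (not_not.2 hH), if_neg (not_not.2 hH)]
      · rw [if_pos hH, if_pos hH]
    rw [pushs (fun i => b i ^ k i) (fun i n => P (b i) (w i) 0 (k i) n) v Bad, sum_pi_range (fun i => b i ^ k i)] at h7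
    refine le_trans (sum_le_sum ?_) h7
    intro a _
    have hpn : 0 ≤ ∏ i, P (b i) (w i) 0 (k i) (a i) := prod_nonneg fun i _ => hP0 i _
    by_cases hzero : ∏ i, P (b i) (w i) 0 (k i) (a i) = 0
    · rw [hzero]
      split_ifs <;> exact le_rfl
    · by_cases hg : Good (fun i => ⌊(F i).eval ((a i : ℕ) : ℝ)⌋ + j i)
      · rw [if_neg (not_not.2 hg)]
        split_ifs
        · exact hpn
        · exact le_rfl
      · rw [if_pos hg, if_pos]
        rw [hBad]
        simp only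
        intro hall
        apply hg
        rw [hGood]
        intro hpos
        have h8 : (fun i => v i (a i)) = fun i => (⌊(F i).eval ((a i : ℕ) : ℝ)⌋ + j i).toNat := by
          funext i
          apply hvn i (a i) (a i).2
          intro h0
          exact hzero (prod_eq_zero (mem_univ i) h0)
        rw [h8] at hall
        exact hmono _ hall)
  rw [← hL]
  have hfin : ∑ n ∈ Fintype.piFinset (fun i => range (b i ^ k i)), (if ∀ a : Fin s → ℕ, (∀ i, |(a i : ℝ) - (F i).eval (n i : ℝ)| ≤ L ^ V) →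
      AllS ε Cw U N a then 0 else ∏ i, P (b i) (w i) 0 (k i) (n i)) ≤
      ∑ n ∈ Fintype.piFinset (fun i => range (b i ^ k i)), (if ∀ β : Fin s → ℤ, (∀ i, |(β i : ℝ) - (F i).eval (n i : ℝ)| ≤ L ^ V) → Good β
      then 0 else ∏ i, P (b i) (w i) 0 (k i) (n i)) := by
    apply sum_le_sum
    intro n _
    have hpn : 0 ≤ ∏ i, P (b i) (w i) 0 (k i) (n i) := prod_nonneg fun i _ => hP0 i _
    by_cases hg : ∀ β : Fin s → ℤ, (∀ i, |(β i : ℝ) - (F i).eval (n i : ℝ)| ≤ L ^ V) → Good β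
    · rw [if_pos hg, if_pos]
      intro a ha
      have h9 := hg (fun i => (a i : ℤ)) (fun i => by push_cast; exact ha i)
      rw [hGood] at h9
      have h10 := h9 (fun i => Int.natCast_nonneg _)
      simp only [Int.toNat_natCast] at h10
      exact h10
    · rw [if_neg hg]
      split_ifs
      · exact hpn
      · exact le_rfl
  refine hfin.trans (hu.trans ?_)
  calc (5 : ℝ) ^ s * L ^ (V * s) * (1 / L ^ U') ≤ L * L ^ (V * s) * (1 / L ^ U') := by
        apply mul_le_mul_of_nonneg_right _ (by positivity)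
        exact mul_le_mul_of_nonneg_right hL5 (by positivity)
    _ = 1 / L ^ U := by
        rw [hU', mul_one_div, div_eq_div_iff (by positivity) (by positivity)]
        ring

end Pool.Agent.H92.Pd
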